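import Mathlib

set_option autoImplicit false

/-!
A polynomial which vanishes at many points `(…, X (a s), …, X (b s), …)` has large degree.
-/

namespace Pool.Agent.NH29.VE

open MvPolynomial

variable {k : Type} [Field k]

/-- fix all the variables but one -/
noncomputable def par {n : ℕ} (c : Fin n → k) (j : Fin n) (G : MvPolynomial (Fin n) k) :
    Polynomial k :=
  aeval (fun l => if l = j then Polynomial.X else Polynomial.C (c l)) G

lemma natDegree_par {n : ℕ} (c : Fin n → k) (j : Fin n) (G : MvPolynomial (Fin n) k) :
    (par c j G).natDegree ≤ G.degreeOf j := by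
  classical
  unfold par
  rw [aeval_def, eval₂_eq']
  refine Polynomial.natDegree_sum_le_of_forall_le _ _ fun d hd => ?_
  refine (Polynomial.natDegree_mul_le).trans ?_
  have h1 : (algebraMap k (Polynomial k) (coeff d G)).natDegree = 0 := Polynomial.natDegree_C _
  rw [h1, zero_add]
  refine (Polynomial.natDegree_prod_le _ _).trans ?_
  have h2 : ∀ l ∈ (Finset.univ : Finset (Fin n)),
      ((if l = j then Polynomial.X else Polynomial.C (c l)) ^ d l : Polynomial k).natDegree ≤
        if l = j then d l else 0 := by
    intro l _
    refine (Polynomial.natDegree_pow_le).trans ?_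
    split_ifs with h
    · rw [Polynomial.natDegree_X, mul_one]
    · rw [Polynomial.natDegree_C, mul_zero]
  refine (Finset.sum_le_sum h2).trans ?_
  rw [Finset.sum_ite_eq' Finset.univ j (fun l => d l), if_pos (Finset.mem_univ j)]
  exact monomial_le_degreeOf j hd

lemma eval_par {n : ℕ} (c : Fin n → k) (j : Fin n) (G : MvPolynomial (Fin n) k) (t : k) :
    (par c j G).eval t = eval (Function.update c j t) G := by
  have h : (Polynomial.evalRingHom t).comp (aeval (R := k)
      (fun l => if l = j then Polynomial.X else Polynomial.C (c l)) :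
        MvPolynomial (Fin n) k →ₐ[k] Polynomial k).toRingHom =
      (eval (Function.update c j t) : MvPolynomial (Fin n) k →+* k) := by
    refine MvPolynomial.ringHom_ext (fun a => ?_) fun l => ?_
    · simp
    · by_cases hl : l = j
      · simp [hl]
      · simp [hl]
  exact congrArg (fun f => f G) h

theorem alg {n : ℕ} (G : MvPolynomial (Fin n) k) (hG : G ≠ 0) {i j : Fin n} (hij : i ≠ j)
    (X : ℕ → k) (hX : ∀ m m', 0 < m → 0 < m' → X m = X m' → m = m') (S : Finset (ℕ × ℕ))
    (hS : ∀ p ∈ S, 0 < p.1 ∧ 0 < p.2 ∧ Nat.Coprime p.1 p.2)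
    (h : ∀ r : Fin n → ℕ, (∀ l, 0 < r l) → ∃ t₀ : ℕ, ∀ s : ℕ, t₀ ≤ s → 0 < s → ∀ p ∈ S,
      eval (Function.update (Function.update (fun l => X (r l)) i (X (p.1 * s))) j
        (X (p.2 * s))) G = 0) :
    S.card ≤ G.degreeOf j := by
  classical
  by_contra hlt
  rw [not_le] at hlt
  apply hG
  set A : Set k := X '' {m | 0 < m} with hA
  have hAinf : A.Infinite := by
    refine Set.Infinite.image (fun m hm m' hm' e => hX m m' hm hm' e) ?_
    exact Set.infinite_of_not_bddAbove (fun ⟨b, hb⟩ => by
      have := hb (show (b + 1) ∈ {m : ℕ | 0 < m} from Nat.succ_pos b)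
      omega)
  refine funext_set (fun l => if l = i ∨ l = j then Set.univ else A) ?_ ?_
  · intro l
    split_ifs
    · exact hAinf.mono (Set.subset_univ _)
    · exact hAinf
  · intro x hx
    rw [map_zero]
    -- choose the indices
    have hr : ∀ l, ∃ m, 0 < m ∧ (l ≠ i → l ≠ j → x l = X m) := by
      intro l
      by_cases hl : l = i ∨ l = j
      · exact ⟨1, one_pos, fun h1 h2 => by rcases hl with hl | hl <;> contradiction⟩
      · have h1 := hx l (Set.mem_univ l)
        dsimp only at h1
        rw [if_neg hl] at h1
        obtain ⟨m, hm, hm2⟩ := h1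
        exact ⟨m, hm, fun _ _ => hm2.symm⟩
    choose r hr0 hr1 using hr
    obtain ⟨t₀, ht₀⟩ := h r hr0
    set N : ℕ := ∏ p ∈ S, p.1 with hN
    have hN0 : 0 < N := Finset.prod_pos fun p hp => (hS p hp).1
    have hdvd : ∀ p ∈ S, p.1 ∣ N := fun p hp => Finset.dvd_prod_of_mem (fun p : ℕ × ℕ => p.1) hp
    have key : ∀ t : ℕ, t₀ ≤ t → 0 < t → ∀ y : k,
        eval (Function.update (Function.update (fun l => X (r l)) i (X (N * t))) j y) G = 0 := by
      intro t ht ht0 y
      set c := Function.update (fun l => X (r l)) i (X (N * t)) with hc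
      have hz : par c j G = 0 := by
        by_contra hne
        set f : ℕ × ℕ → k := fun p => X (p.2 * (N / p.1) * t) with hf
        have hpos : ∀ p ∈ S, 0 < N / p.1 := fun p hp =>
          Nat.div_pos (Nat.le_of_dvd hN0 (hdvd p hp)) (hS p hp).1
        have hinj : Set.InjOn f S := by
          intro p hp q hq e
          have h1 := hX _ _ (Nat.mul_pos (Nat.mul_pos (hS p hp).2.1 (hpos p hp)) ht0)
            (Nat.mul_pos (Nat.mul_pos (hS q hq).2.1 (hpos q hq)) ht0) e
          have h2 : p.2 * (N / p.1) = q.2 * (N / q.1) := Nat.eq_of_mul_eq_mul_right ht0 h1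
          have h3 : p.2 * q.1 = q.2 * p.1 := by
            have e1 := Nat.div_mul_cancel (hdvd p hp)
            have e2 := Nat.div_mul_cancel (hdvd q hq)
            have e3 : p.2 * q.1 * N = q.2 * p.1 * N := by
              calc p.2 * q.1 * N = p.2 * q.1 * (N / p.1 * p.1) := by rw [e1]
                _ = p.2 * (N / p.1) * (q.1 * p.1) := by ring
                _ = q.2 * (N / q.1) * (q.1 * p.1) := by rw [h2]
                _ = q.2 * p.1 * (N / q.1 * q.1) := by ring
                _ = q.2 * p.1 * N := by rw [e2]
            exact Nat.eq_of_mul_eq_mul_right hN0 e3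
          obtain ⟨-, -, cp⟩ := hS p hp
          obtain ⟨-, -, cq⟩ := hS q hq
          have d1 : p.1 ∣ q.1 := by
            apply cp.dvd_of_dvd_mul_left
            rw [h3]
            exact Dvd.intro_left _ rfl
          have d2 : q.1 ∣ p.1 := by
            apply cq.dvd_of_dvd_mul_left
            rw [← h3]
            exact Dvd.intro_left _ rfl
          have e1 : p.1 = q.1 := Nat.dvd_antisymm d1 d2
          have e2 : p.2 = q.2 := by
            rw [e1] at h3
            exact Nat.eq_of_mul_eq_mul_right (hS q hq).1 h3
          exact Prod.ext e1 e2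
        have hroots : S.image f ⊆ (par c j G).roots.toFinset := by
          intro z hz
          obtain ⟨p, hp, rfl⟩ := Finset.mem_image.1 hz
          rw [Multiset.mem_toFinset, Polynomial.mem_roots hne, Polynomial.IsRoot, eval_par]
          have h1 := ht₀ (N / p.1 * t) (ht.trans (Nat.le_mul_of_pos_left t (hpos p hp)))
            (Nat.mul_pos (hpos p hp) ht0) p hp
          have h2 : p.1 * (N / p.1 * t) = N * t := by
            rw [← mul_assoc, Nat.mul_div_cancel' (hdvd p hp)]
          have h3 : p.2 * (N / p.1 * t) = p.2 * (N / p.1) * t := by ring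
          rw [h2, h3] at h1
          exact h1
        have h1 : S.card ≤ (par c j G).natDegree := by
          calc S.card = (S.image f).card := (Finset.card_image_of_injOn hinj).symm
            _ ≤ (par c j G).roots.toFinset.card := Finset.card_le_card hroots
            _ ≤ (par c j G).roots.card := Multiset.toFinset_card_le _
            _ ≤ _ := Polynomial.card_roots' _
        exact absurd (h1.trans (natDegree_par c j G)) (not_le.2 hlt)
      rw [← eval_par, hz, Polynomial.eval_zero]
    -- the variable `i`
    set c := Function.update (fun l => X (r l)) j (x j) with hc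
    have hz : par c i G = 0 := by
      apply Polynomial.eq_zero_of_infinite_isRoot
      have hinf : (X '' ((fun t => N * t) '' {t | t₀ < t})).Infinite := by
        refine Set.Infinite.image ?_ ?_
        · rintro _ ⟨t, ht, rfl⟩ _ ⟨t', ht', rfl⟩ e
          exact hX _ _ (Nat.mul_pos hN0 (lt_of_le_of_lt (Nat.zero_le _) ht))
            (Nat.mul_pos hN0 (lt_of_le_of_lt (Nat.zero_le _) ht')) e
        · refine Set.Infinite.image (fun t _ t' _ e => Nat.eq_of_mul_eq_mul_left hN0 e) ?_
          exact Set.infinite_of_not_bddAbove (fun ⟨b, hb⟩ => by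
            have := hb (show (b + t₀ + 1) ∈ {m : ℕ | t₀ < m} by
              show t₀ < b + t₀ + 1
              omega)
            omega)
      refine hinf.mono ?_
      rintro _ ⟨_, ⟨t, ht, rfl⟩, rfl⟩
      show (par c i G).IsRoot _
      rw [Polynomial.IsRoot, eval_par, hc, Function.update_comm hij.symm]
      exact key t (le_of_lt ht) (lt_of_le_of_lt (Nat.zero_le _) ht) _
    have h1 : eval (Function.update c i (x i)) G = 0 := by
      rw [← eval_par, hz, Polynomial.eval_zero]
    have h2 : Function.update c i (x i) = x := by
      funext l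
      by_cases hi : l = i
      · rw [hi, Function.update_self]
      · rw [Function.update_of_ne hi, hc]
        by_cases hj : l = j
        · rw [hj, Function.update_self]
        · rw [Function.update_of_ne hj]
          exact (hr1 l hi hj).symm
    rw [h2] at h1
    exact h1

end Pool.Agent.NH29.VE
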