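import Mathlib
import Pool.Agent.TH954.Ht

set_option autoImplicit false
set_option linter.unusedSectionVars false

/-!
Multiples of a point of `y² = x³ + a x + b` and nonarchimedean absolute values.
-/

namespace Pool.Agent.NH29.VE

open NumberField WeierstrassCurve IsDedekindDomain
open Pool.Agent.TH942 Pool.Agent.TH954

variable {K : Type} [Field K]

section na

variable {v : AbsoluteValue K ℝ} (hna : ∀ x y, v (x + y) ≤ max (v x) (v y))

include hna

lemma na_add {x y : K} {M : ℝ} (hx : v x ≤ M) (hy : v y ≤ M) : v (x + y) ≤ M :=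
  (hna x y).trans (max_le hx hy)

lemma na_sub {x y : K} {M : ℝ} (hx : v x ≤ M) (hy : v y ≤ M) : v (x - y) ≤ M := by
  rw [sub_eq_add_neg]
  exact na_add hna hx (by rwa [v.map_neg])

lemma na_add_lt {x y : K} {M : ℝ} (hx : v x < M) (hy : v y < M) : v (x + y) < M :=
  (hna x y).trans_lt (max_lt hx hy)

lemma na_sub_lt {x y : K} {M : ℝ} (hx : v x < M) (hy : v y < M) : v (x - y) < M := by
  rw [sub_eq_add_neg]
  exact na_add_lt hna hx (by rwa [v.map_neg])

lemma na_add_eq {x y : K} (h : v y < v x) : v (x + y) = v x := by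
  apply le_antisymm (na_add hna le_rfl h.le)
  by_contra hc
  rw [not_le] at hc
  have h1 := na_sub_lt hna hc h
  rw [add_sub_cancel_right] at h1
  exact lt_irrefl _ h1

lemma na_sub_eq {x y : K} (h : v y < v x) : v (x - y) = v x := by
  rw [sub_eq_add_neg, na_add_eq hna (by rwa [v.map_neg])]

lemma na_nat (n : ℕ) : v (n : K) ≤ 1 := by
  induction n with
  | zero => rw [Nat.cast_zero, v.map_zero]; exact zero_le_one
  | succ n ih => rw [Nat.cast_succ]; exact na_add hna ih v.map_one.le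

omit hna in
lemma na_mul {c u : K} {M : ℝ} (hc : v c ≤ 1) (hu : v u ≤ M) : v (c * u) ≤ M := by
  rw [v.map_mul]
  calc v c * v u ≤ 1 * v u := mul_le_mul_of_nonneg_right hc (v.nonneg _)
    _ ≤ M := by rw [one_mul]; exact hu

variable [DecidableEq K] [CharZero K] {a b : K}

omit hna [DecidableEq K] [CharZero K] in
lemma sw_short : Short (sw a b) := ⟨rfl, rfl, rfl⟩

lemma bigV_add_na (ha : v a ≤ 1) (hb : v b ≤ 1) {R : ℝ} (hR : 1 < R) {T1 T2 : SPt a b}
    (hT1 : BigV v R T1) (hT2 : BigV v R T2) : BigV v R (T1 + T2) := by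
  have h2 : (2 : K) ≠ 0 := two_ne_zero
  match T1, T2 with
  | .zero, T2 =>
    have : (Affine.Point.zero : SPt a b) + T2 = T2 := zero_add T2
    rw [this]
    exact hT2
  | .some x1 y1 n1, .zero =>
    have : (Affine.Point.some x1 y1 n1 : SPt a b) + (Affine.Point.zero : SPt a b) =
      Affine.Point.some x1 y1 n1 := add_zero _
    rw [this]
    exact hT1
  | .some x1 y1 n1, .some x2 y2 n2 =>
    intro X Y n3 h
    by_contra hX
    rw [not_le] at hX
    have hq := sw_short.quad h2 h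
    have e4 : (sw a b).a₄ = a := rfl
    have e6 : (sw a b).a₆ = b := rfl
    rw [e4, e6] at hq
    have r1 := bigV_some.mp hT1
    have r2 := bigV_some.mp hT2
    have u2 : v (2 : K) ≤ 1 := by exact_mod_cast na_nat hna 2
    have u4 : v (4 : K) ≤ 1 := by exact_mod_cast na_nat hna 4
    set M : ℝ := max (v x1) (v x2) with hM
    have hM1 : v x1 ≤ M := le_max_left _ _
    have hM2 : v x2 ≤ M := le_max_right _ _
    have hM0 : 1 < M := lt_of_lt_of_le hR (r1.trans hM1)
    have hp : R * M ≤ v x1 * v x2 := by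
      rcases le_total (v x1) (v x2) with hle | hle
      · rw [hM, max_eq_right hle]
        exact mul_le_mul_of_nonneg_right r1 (v.nonneg _)
      · rw [hM, max_eq_left hle, mul_comm]
        exact mul_le_mul_of_nonneg_left r2 (v.nonneg _)
    set p : ℝ := v x1 * v x2 with hpdef
    have hpM : M < p := lt_of_lt_of_le (by nlinarith) hp
    have hp1 : 1 < p := hM0.trans hpM
    have hx12 : v (x1 * x2) = p := v.map_mul _ _
    have e1 : v (x1 * x2 - a) = p := by
      rw [na_sub_eq hna (by rw [hx12]; exact lt_of_le_of_lt ha hp1), hx12]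
    have e2 : v ((x1 * x2 - a) ^ 2) = p ^ 2 := by rw [v.map_pow, e1]
    have hs : v (x1 + x2) ≤ M := na_add hna hM1 hM2
    have e3 : v (4 * b * (x1 + x2)) ≤ M := by
      rw [mul_assoc]
      exact na_mul u4 (na_mul hb hs)
    have hpp : p < p ^ 2 := by nlinarith
    have eC : v ((x1 * x2 - a) ^ 2 - 4 * b * (x1 + x2)) = p ^ 2 := by
      rw [na_sub_eq hna, e2]
      rw [e2]
      exact lt_of_le_of_lt e3 (hpM.trans hpp)
    have eA : v ((x1 - x2) ^ 2 * X ^ 2) < p ^ 2 := by
      rw [v.map_mul, v.map_pow, v.map_pow, ← mul_pow]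
      have h3 : v (x1 - x2) ≤ M := na_sub hna hM1 hM2
      have h4 : v (x1 - x2) * v X < p := by
        calc v (x1 - x2) * v X ≤ M * v X := mul_le_mul_of_nonneg_right h3 (v.nonneg _)
          _ < M * R := mul_lt_mul_of_pos_left hX (by linarith)
          _ ≤ p := by rw [mul_comm]; exact hp
      exact pow_lt_pow_left₀ h4 (mul_nonneg (v.nonneg _) (v.nonneg _)) (by norm_num)
    have eB : v (2 * ((x1 + x2) * (x1 * x2 + a) + 2 * b) * X) < p ^ 2 := by
      have h5 : v (x1 * x2 + a) ≤ p := na_add hna hx12.le (ha.trans hp1.le)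
      have h6 : v ((x1 + x2) * (x1 * x2 + a)) ≤ M * p := by
        rw [v.map_mul]
        exact mul_le_mul hs h5 (v.nonneg _) (by linarith)
      have h7 : v ((2 : K) * b) ≤ M * p := (na_mul u2 hb).trans (by nlinarith)
      have h8 : v (2 * ((x1 + x2) * (x1 * x2 + a) + 2 * b)) ≤ M * p :=
        na_mul u2 (na_add hna h6 h7)
      rw [v.map_mul]
      calc _ ≤ M * p * v X := mul_le_mul_of_nonneg_right h8 (v.nonneg _)
        _ < M * p * R := mul_lt_mul_of_pos_left hX (by positivity)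
        _ = R * M * p := by ring
        _ ≤ p * p := mul_le_mul_of_nonneg_right hp (by linarith)
        _ = p ^ 2 := by ring
    have hC : (x1 * x2 - a) ^ 2 - 4 * b * (x1 + x2) =
        2 * ((x1 + x2) * (x1 * x2 + a) + 2 * b) * X - (x1 - x2) ^ 2 * X ^ 2 := by
      linear_combination hq
    have := na_sub_lt hna eB eA
    rw [← hC, eC] at this
    exact lt_irrefl _ this

lemma bigV_nsmul_na (ha : v a ≤ 1) (hb : v b ≤ 1) {R : ℝ} (hR : 1 < R) {T : SPt a b}
    (hT : BigV v R T) (n : ℕ) : BigV v R (n • T) := by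
  induction n with
  | zero => rw [zero_smul]; exact bigV_zero v R
  | succ n ih => rw [succ_nsmul]; exact bigV_add_na hna ha hb hR ih hT

omit hna in
/-- the duplication formula -/
lemma dup {x y X Y : K} {h : (sw a b).toAffine.Nonsingular x y}
    {H : (sw a b).toAffine.Nonsingular X Y}
    (h2 : (2 : ℕ) • (Affine.Point.some x y h : SPt a b) = Affine.Point.some X Y H) :
    y ≠ 0 ∧ X * (4 * y ^ 2) = x ^ 4 - 2 * a * x ^ 2 - 8 * b * x + a ^ 2 := by
  rw [two_nsmul] at h2
  have h3 := sw_short.add_eq h2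
  obtain ⟨-, hy, hX⟩ := h3
  refine ⟨hy, ?_⟩
  have e := sw_eqn.mp h.1
  rw [hX]
  have e4 : (sw a b).a₄ = a := rfl
  rw [e4]
  field_simp
  linear_combination (-32 * x) * e

/-- At a good place `v`: if the double of `T` is not near the origin then `y(T)` is a unit. -/
lemma unit_of_double (ha : v a ≤ 1) (hb : v b ≤ 1) (hD : v (4 * a ^ 3 + 27 * b ^ 2) = 1)
    {x y X Y : K} {h : (sw a b).toAffine.Nonsingular x y}
    {H : (sw a b).toAffine.Nonsingular X Y}
    (h2 : (2 : ℕ) • (Affine.Point.some x y h : SPt a b) = Affine.Point.some X Y H)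
    (hX : v X ≤ 1) : v x ≤ 1 ∧ v y = 1 := by
  have hx : v x ≤ 1 := by
    by_contra hc
    rw [not_le] at hc
    have h3 : BigV v (v x) (Affine.Point.some x y h : SPt a b) := bigV_some.2 le_rfl
    have h4 := bigV_nsmul_na hna ha hb hc h3 2
    rw [h2, bigV_some] at h4
    linarith
  refine ⟨hx, ?_⟩
  have e := sw_eqn.mp h.1
  have vx2 : v (x ^ 2) ≤ 1 := by rw [v.map_pow]; exact pow_le_one₀ (v.nonneg _) hx
  have vx3 : v (x ^ 3) ≤ 1 := by rw [v.map_pow]; exact pow_le_one₀ (v.nonneg _) hx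
  have vax : v (a * x) ≤ 1 := na_mul ha hx
  have hf : v (x ^ 3 + a * x + b) ≤ 1 := na_add hna (na_add hna vx3 vax) hb
  have hy2 : v y ^ 2 ≤ 1 := by rw [← v.map_pow, e]; exact hf
  have hy1 : v y ≤ 1 := by
    by_contra hc
    rw [not_le] at hc
    nlinarith [v.nonneg y]
  by_contra hne
  have hlt : v y < 1 := lt_of_le_of_ne hy1 hne
  obtain ⟨hy0, hdup⟩ := dup h2
  have u : ∀ n : ℕ, v (n : K) ≤ 1 := na_nat hna
  have hid : (3 * x ^ 2 + 4 * a) * (X * (4 * y ^ 2)) -
      (3 * x ^ 3 - 5 * a * x - 27 * b) * y ^ 2 = 4 * a ^ 3 + 27 * b ^ 2 := by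
    rw [hdup, e]
    ring
  have hid' : y ^ 2 * ((3 * x ^ 2 + 4 * a) * (X * 4) - (3 * x ^ 3 - 5 * a * x - 27 * b)) =
      4 * a ^ 3 + 27 * b ^ 2 := by
    rw [← hid]; ring
  have h3 : v ((3 * x ^ 2 + 4 * a) * (X * 4) - (3 * x ^ 3 - 5 * a * x - 27 * b)) ≤ 1 := by
    have u3 : v (3 : K) ≤ 1 := by exact_mod_cast u 3
    have u4 : v (4 : K) ≤ 1 := by exact_mod_cast u 4
    have u5 : v (5 : K) ≤ 1 := by exact_mod_cast u 5
    have u27 : v (27 : K) ≤ 1 := by exact_mod_cast u 27
    refine na_sub hna ?_ ?_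
    · refine na_mul ?_ ?_
      · exact na_add hna (na_mul u3 vx2) (na_mul u4 ha)
      · rw [mul_comm]; exact na_mul u4 hX
    · refine na_sub hna (na_sub hna (na_mul u3 vx3) ?_) (na_mul u27 hb)
      rw [mul_assoc]
      exact na_mul u5 vax
  have h4 := congrArg v hid'
  rw [v.map_mul, v.map_pow, hD] at h4
  have h5 : v y ^ 2 < 1 := by
    have := v.nonneg y
    nlinarith
  have h6 : 0 ≤ v ((3 * x ^ 2 + 4 * a) * (X * 4) - (3 * x ^ 3 - 5 * a * x - 27 * b)) :=
    v.nonneg _
  nlinarith [sq_nonneg (v y)]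

end na

end Pool.Agent.NH29.VE
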