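import Mathlib
import Pool.Agent.TH954.HtKey
import Pool.Agent.H951R2.MSFinite
import Pool.Agent.NH29.VE.Loc

set_option autoImplicit false
set_option linter.unusedSectionVars false

/-!
The primes at which a multiple of a point is near the origin.
-/

namespace Pool.Agent.NH29.VE

open NumberField WeierstrassCurve IsDedekindDomain Height Function
open Pool.Agent.TH942 Pool.Agent.TH954

variable {K : Type} [Field K]

/-- the local height of the `x`-coordinate -/
noncomputable def xm {a b : K} (v : AbsoluteValue K ℝ) (P : SPt a b) : ℝ := ⨆ j, v (P.xRep j)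

lemma sup_two (v : AbsoluteValue K ℝ) (x y : K) : ⨆ j, v (![x, y] j) = max (v x) (v y) := by
  apply le_antisymm
  · refine ciSup_le fun j => ?_
    fin_cases j
    · exact le_max_left _ _
    · exact le_max_right _ _
  · refine max_le ?_ ?_
    · exact le_ciSup (f := fun j => v (![x, y] j)) (Set.finite_range _).bddAbove 0
    · exact le_ciSup (f := fun j => v (![x, y] j)) (Set.finite_range _).bddAbove 1

lemma xm_some {a b : K} (v : AbsoluteValue K ℝ) {x y : K}
    (h : (sw a b).toAffine.Nonsingular x y) :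
    xm v (Affine.Point.some x y h : SPt a b) = max (v x) 1 := by
  unfold xm
  rw [Affine.Point.xRep_some, sup_two, v.map_one]

lemma one_le_xm {a b : K} (v : AbsoluteValue K ℝ) (P : SPt a b) : 1 ≤ xm v P := by
  match P with
  | .zero =>
    have : (Affine.Point.zero : SPt a b).xRep = ![1, 0] := Affine.Point.xRep_zero
    unfold xm
    rw [this, sup_two, v.map_one]
    exact le_max_left _ _
  | .some x y h =>
    rw [xm_some]
    exact le_max_right _ _

lemma exists_some {a b : K} {P : SPt a b} (hP : P ≠ 0) :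
    ∃ (x y : K) (h : (sw a b).toAffine.Nonsingular x y), P = Affine.Point.some x y h := by
  match P with
  | .zero => exact absurd rfl hP
  | .some x y h => exact ⟨x, y, h, rfl⟩

variable [DecidableEq K] [CharZero K]

/-- the constant at a bad place -/
noncomputable def Rc (a b : K) (m : ℕ) (v : AbsoluteValue K ℝ) : ℝ :=
  100 * (1 + v a + v b) * 6 ^ m

lemma one_le_Rc (a b : K) (m : ℕ) (v : AbsoluteValue K ℝ) : 1 ≤ Rc a b m v := by
  have ha := v.nonneg a
  have hb := v.nonneg b
  have h6 : (1 : ℝ) ≤ 6 ^ m := one_le_pow₀ (by norm_num)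
  unfold Rc
  nlinarith

lemma xm_le {a b : K} (v : AbsoluteValue K ℝ) (m : ℕ) {Q : SPt a b} (hQ : Q ≠ 0)
    (hmQ : m • Q ≠ 0) : xm v Q ≤ Rc a b m v * xm v (m • Q) := by
  obtain ⟨x, y, h, rfl⟩ := exists_some hQ
  obtain ⟨X, Y, H, hX⟩ := exists_some hmQ
  have h1 := one_le_Rc a b m v
  have h2 := one_le_xm v (m • (Affine.Point.some x y h : SPt a b))
  have h6 : (1 : ℝ) ≤ 6 ^ m := one_le_pow₀ (by norm_num)
  have ha := v.nonneg a
  have hb := v.nonneg b
  rw [xm_some]
  have h3 : 1 ≤ Rc a b m v * xm v (m • (Affine.Point.some x y h : SPt a b)) := by nlinarith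
  refine max_le ?_ h3
  rcases le_or_gt (Rc a b m v) (v x) with hc | hc
  · have h4 : BigV v (v x) (Affine.Point.some x y h : SPt a b) := bigV_some.2 le_rfl
    have h5 := sw_short.bigV_nsmul (two_ne_zero) v m (r := v x) hc h4
    rw [hX, bigV_some] at h5
    have h7 : v x ≤ v X * 6 ^ m := by
      rwa [div_le_iff₀ (by positivity)] at h5
    have h8 : v X ≤ xm v (m • (Affine.Point.some x y h : SPt a b)) := by
      rw [hX, xm_some]; exact le_max_left _ _
    have h9 : (6 : ℝ) ^ m ≤ Rc a b m v := by
      unfold Rc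
      nlinarith
    calc v x ≤ v X * 6 ^ m := h7
      _ ≤ xm v (m • (Affine.Point.some x y h : SPt a b)) * Rc a b m v :=
          mul_le_mul h8 h9 (by positivity) (by linarith)
      _ = _ := mul_comm _ _
  · calc v x ≤ Rc a b m v := hc.le
      _ = Rc a b m v * 1 := (mul_one _).symm
      _ ≤ _ := mul_le_mul_of_nonneg_left h2 (by linarith)

section fin

variable [NumberField K]

lemma gap {a b : K} (v : FinitePlace K) (ha : v a ≤ 1) (hb : v b ≤ 1) {P : SPt a b}
    (h : 1 < xm v.val P) :
    ((Ideal.absNorm v.maximalIdeal.asIdeal : ℝ)) ^ 2 ≤ xm v.val P := by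
  have hna : ∀ x y, v.val (x + y) ≤ max (v.val x) (v.val y) := FinitePlace.add_le v
  by_cases hP : P = 0
  · exfalso
    have : (0 : SPt a b).xRep = ![1, 0] := Affine.Point.xRep_zero
    rw [hP] at h
    unfold xm at h
    rw [this, sup_two, v.val.map_one, v.val.map_zero] at h
    norm_num at h
  obtain ⟨x, y, hn, rfl⟩ := exists_some hP
  rw [xm_some] at h ⊢
  have hx : 1 < v.val x := by
    rcases lt_max_iff.1 h with h | h
    · exact h
    · exact absurd h (lt_irrefl _)
  refine le_trans ?_ (le_max_left _ _)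
  have e := sw_eqn.mp hn.1
  have hx1 : v.val x < v.val x ^ 3 := by
    have h1 : 0 < v.val x := by linarith
    have h2 : 0 < v.val x ^ 2 - 1 := by nlinarith
    nlinarith [mul_pos h1 h2]
  have e2 : v.val y ^ 2 = v.val x ^ 3 := by
    rw [← v.val.map_pow, e, add_assoc, na_add_eq hna, v.val.map_pow]
    rw [v.val.map_pow]
    exact na_add_lt hna (lt_of_le_of_lt (na_mul ha le_rfl) hx1)
      (lt_of_le_of_lt hb (hx.trans hx1))
  have hx0 : x ≠ 0 := by
    rintro rfl
    rw [v.val.map_zero] at hx
    linarith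
  have hy0 : y ≠ 0 := by
    rintro rfl
    rw [v.val.map_zero] at e2
    have : (0 : ℝ) < v.val x ^ 3 := by positivity
    rw [← e2] at this
    norm_num at this
  have hq : (1 : ℝ) < Ideal.absNorm v.maximalIdeal.asIdeal := by
    exact_mod_cast H951R2.MS.fp_one_lt v
  have hq0 : (0 : ℝ) < Ideal.absNorm v.maximalIdeal.asIdeal := by linarith
  obtain ⟨i, hi⟩ := H951R2.MS.fp_eq_zpow v hx0
  obtain ⟨j, hj⟩ := H951R2.MS.fp_eq_zpow v hy0
  have hi' : v.val x = (Ideal.absNorm v.maximalIdeal.asIdeal : ℝ) ^ i := hi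
  have hj' : v.val y = (Ideal.absNorm v.maximalIdeal.asIdeal : ℝ) ^ j := hj
  rw [hi', hj', ← zpow_natCast, ← zpow_natCast, ← zpow_mul, ← zpow_mul] at e2
  have h3 : j * ((2 : ℕ) : ℤ) = i * ((3 : ℕ) : ℤ) := zpow_right_injective₀ hq0 hq.ne' e2
  rw [hi'] at hx ⊢
  have hi0 : 0 < i := by
    by_contra hcon
    push Not at hcon
    exact absurd (zpow_le_one_of_nonpos₀ hq.le hcon) (not_le.2 hx)
  have hi2 : 2 ≤ i := by push_cast at h3; omega
  calc ((Ideal.absNorm v.maximalIdeal.asIdeal : ℝ)) ^ 2
      = ((Ideal.absNorm v.maximalIdeal.asIdeal : ℝ)) ^ (2 : ℤ) := by norm_cast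
    _ ≤ _ := zpow_le_zpow_right₀ hq.le hi2

/-- **The main inequality.** -/
theorem glob (a b : K) (m n : ℕ) (B : Finset (FinitePlace K))
    (hB : ∀ v : FinitePlace K, v ∉ B → v a ≤ 1 ∧ v b ≤ 1) :
    ∃ C : ℝ, ∀ Q : SPt a b, Q ≠ 0 → m • Q ≠ 0 → n • Q ≠ 0 →
      ∀ V : Finset (FinitePlace K), (∀ v ∈ V, v ∉ B ∧
        (1 < xm v.val (m • Q) ∨ 1 < xm v.val (n • Q))) →
      2 * ∑ v ∈ V, Real.log (Ideal.absNorm v.maximalIdeal.asIdeal : ℝ) + sht Q ≤
        sht (m • Q) + sht (n • Q) + C := by
  classical
  set Cf : FinitePlace K → ℝ := fun v => if v ∈ B then Rc a b m v.val else 1 with hCf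
  have hCfs : Cf.HasFiniteMulSupport := by
    refine Set.Finite.subset B.finite_toSet ?_
    intro v hv
    by_contra hc
    apply hv
    have : v ∉ B := hc
    rw [hCf]
    simp only [this, if_false]
  have hCf1 : ∀ v, 1 ≤ Cf v := by
    intro v
    simp only [hCf]
    split_ifs
    · exact one_le_Rc _ _ _ _
    · exact le_rfl
  set Ci : ℝ := ∏ w : InfinitePlace K, Rc a b m w.val ^ w.mult with hCi
  have hCi0 : 0 < Ci := Finset.prod_pos fun w _ => pow_pos (by
    have := one_le_Rc a b m w.val; linarith) _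
  have hCf0 : 0 < ∏ᶠ v, Cf v := finprod_induction (fun x : ℝ => 0 < x) one_pos
    (fun _ _ h1 h2 => mul_pos h1 h2) (fun v => zero_lt_one.trans_le (hCf1 v))
  refine ⟨Real.log (Ci * ∏ᶠ v, Cf v), ?_⟩
  intro Q hQ hmQ hnQ V hV
  set N : FinitePlace K → ℝ := fun v => (Ideal.absNorm v.maximalIdeal.asIdeal : ℝ) with hN
  have hN1 : ∀ v, 1 < N v := fun v => by
    have := H951R2.MS.fp_one_lt v
    simp only [hN]
    exact_mod_cast this
  set g : FinitePlace K → ℝ := fun v => if v ∈ V then N v ^ 2 else 1 with hg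
  have hg1 : ∀ v, 1 ≤ g v := by
    intro v
    simp only [hg]
    split_ifs
    · exact one_le_pow₀ (hN1 v).le
    · exact le_rfl
  have hgs : g.HasFiniteMulSupport := by
    refine Set.Finite.subset V.finite_toSet ?_
    intro v hv
    by_contra hc
    apply hv
    have : v ∉ V := hc
    rw [hg]
    simp only [this, if_false]
  have hgprod : ∏ᶠ v, g v = ∏ v ∈ V, N v ^ 2 := by
    rw [finprod_eq_prod_of_mulSupport_subset (s := V) g (by
      intro v hv
      by_contra hc
      apply hv
      have : v ∉ V := hc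
      rw [hg]
      simp only [this, if_false])]
    refine Finset.prod_congr rfl fun v hv => ?_
    simp only [hg, hv, if_true]
  have hxs : ∀ P : SPt a b, (fun v : FinitePlace K => xm v.val P).HasFiniteMulSupport := by
    intro P
    by_cases hP : P = 0
    · have : (fun v : FinitePlace K => xm v.val P) = fun _ => 1 := by
        funext v
        rw [hP]
        unfold xm
        rw [show (0 : SPt a b).xRep = ![1, 0] from Affine.Point.xRep_zero, sup_two,
          v.val.map_one, v.val.map_zero]
        norm_num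
      rw [this]
      exact hasFiniteMulSupport_fun_one
    · obtain ⟨x, y, h, rfl⟩ := exists_some hP
      have : (fun v : FinitePlace K => xm v.val (Affine.Point.some x y h : SPt a b)) =
          fun v => max (v x) 1 := by
        funext v
        exact xm_some _ _
      rw [this]
      exact max_fin x
  have hloc : ∀ v : FinitePlace K, xm v.val Q * g v ≤
      Cf v * (xm v.val (m • Q) * xm v.val (n • Q)) := by
    intro v
    have hna : ∀ x y, v.val (x + y) ≤ max (v.val x) (v.val y) := FinitePlace.add_le v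
    have o1 := one_le_xm v.val Q
    have o2 := one_le_xm v.val (m • Q)
    have o3 := one_le_xm v.val (n • Q)
    by_cases hvB : v ∈ B
    · have hvV : v ∉ V := fun h => (hV v h).1 hvB
      simp only [hg, hvV, if_false, hCf, hvB, if_true, mul_one]
      have h1 := xm_le v.val m hQ hmQ
      have h2 := one_le_Rc a b m v.val
      calc xm v.val Q ≤ Rc a b m v.val * xm v.val (m • Q) := h1
        _ = Rc a b m v.val * (xm v.val (m • Q) * 1) := by ring
        _ ≤ _ := by
            refine mul_le_mul_of_nonneg_left ?_ (by linarith)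
            exact mul_le_mul_of_nonneg_left o3 (by linarith)
    · obtain ⟨ha, hb⟩ := hB v hvB
      simp only [hCf, hvB, if_false, one_mul]
      obtain ⟨x, y, h, hQe⟩ := exists_some hQ
      rcases le_or_gt (v.val x) 1 with hx | hx
      · have e1 : xm v.val Q = 1 := by
          rw [hQe, xm_some, max_eq_right hx]
        rw [e1, one_mul]
        by_cases hvV : v ∈ V
        · simp only [hg, hvV, if_true]
          rcases (hV v hvV).2 with h1 | h1
          · have h2 := gap v ha hb h1
            calc N v ^ 2 ≤ xm v.val (m • Q) := h2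
              _ = xm v.val (m • Q) * 1 := (mul_one _).symm
              _ ≤ _ := mul_le_mul_of_nonneg_left o3 (by linarith)
          · have h2 := gap v ha hb h1
            calc N v ^ 2 ≤ xm v.val (n • Q) := h2
              _ = 1 * xm v.val (n • Q) := (one_mul _).symm
              _ ≤ _ := mul_le_mul_of_nonneg_right o2 (by linarith)
        · simp only [hg, hvV, if_false]
          nlinarith
      · have hBig : BigV v.val (v.val x) Q := by
          rw [hQe]; exact bigV_some.2 le_rfl
        have hxQ : xm v.val Q = v.val x := by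
          rw [hQe, xm_some, max_eq_left hx.le]
        have hm : v.val x ≤ xm v.val (m • Q) := by
          have h1 := bigV_nsmul_na hna ha hb hx hBig m
          obtain ⟨X, Y, H, hX⟩ := exists_some hmQ
          rw [hX, bigV_some] at h1
          rw [hX, xm_some]
          exact h1.trans (le_max_left _ _)
        have hn : v.val x ≤ xm v.val (n • Q) := by
          have h1 := bigV_nsmul_na hna ha hb hx hBig n
          obtain ⟨X, Y, H, hX⟩ := exists_some hnQ
          rw [hX, bigV_some] at h1
          rw [hX, xm_some]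
          exact h1.trans (le_max_left _ _)
        have hg2 : g v ≤ N v ^ 2 := by
          simp only [hg]
          split_ifs
          · exact le_rfl
          · exact one_le_pow₀ (hN1 v).le
        have hgap : N v ^ 2 ≤ xm v.val Q := gap v ha hb (by rw [hxQ]; exact hx)
        rw [hxQ] at hgap ⊢
        exact mul_le_mul hm (hg2.trans (hgap.trans hn)) (by linarith [hg1 v]) (by linarith)
  have hht : ∀ P : SPt a b, mulHeight P.xRep =
      (∏ w : InfinitePlace K, xm w.val P ^ w.mult) * ∏ᶠ v : FinitePlace K, xm v.val P :=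
    fun P => NumberField.mulHeight_eq P.xRep_ne_zero
  have hfin : (∏ᶠ v : FinitePlace K, xm v.val Q) * ∏ v ∈ V, N v ^ 2 ≤
      (∏ᶠ v, Cf v) * ((∏ᶠ v : FinitePlace K, xm v.val (m • Q)) *
        ∏ᶠ v : FinitePlace K, xm v.val (n • Q)) := by
    have hpair : (fun v : FinitePlace K => xm v.val (m • Q) * xm v.val (n • Q)).HasFiniteMulSupport :=
      (hxs _).mul (hxs _)
    have e1 := finprod_mul_distrib (hxs Q) hgs
    have e2 := finprod_mul_distrib (hxs (m • Q)) (hxs (n • Q))
    have e3 := finprod_mul_distrib hCfs hpair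
    rw [← hgprod, ← e1, ← e2, ← e3]
    refine finprod_le_finprod ((hxs Q).mul hgs) (fun v => ?_) (hCfs.mul hpair) hloc
    have o1 := one_le_xm v.val Q
    have := hg1 v
    exact mul_nonneg (by linarith) (by linarith)
  have hinf : ∏ w : InfinitePlace K, xm w.val Q ^ w.mult ≤
      Ci * ((∏ w : InfinitePlace K, xm w.val (m • Q) ^ w.mult) *
        ∏ w : InfinitePlace K, xm w.val (n • Q) ^ w.mult) := by
    rw [hCi, ← Finset.prod_mul_distrib, ← Finset.prod_mul_distrib]
    refine Finset.prod_le_prod (fun w _ => pow_nonneg (by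
      have := one_le_xm w.val Q; linarith) _) fun w _ => ?_
    rw [← mul_pow, ← mul_pow]
    refine pow_le_pow_left₀ (by have := one_le_xm w.val Q; linarith) ?_ _
    have h1 := xm_le w.val m hQ hmQ
    have h2 := one_le_Rc a b m w.val
    have o2 := one_le_xm w.val (m • Q)
    have o3 := one_le_xm w.val (n • Q)
    calc xm w.val Q ≤ Rc a b m w.val * xm w.val (m • Q) := h1
      _ = Rc a b m w.val * (xm w.val (m • Q) * 1) := by ring
      _ ≤ _ := by
          refine mul_le_mul_of_nonneg_left ?_ (by linarith)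
          exact mul_le_mul_of_nonneg_left o3 (by linarith)
  have hpos : ∀ P : SPt a b, 0 < mulHeight P.xRep := fun P => mulHeight_pos _
  have hfp : ∀ P : SPt a b, 0 < ∏ᶠ v : FinitePlace K, xm v.val P := fun P =>
    finprod_induction (fun x : ℝ => 0 < x) one_pos (fun _ _ h1 h2 => mul_pos h1 h2)
      (fun v => zero_lt_one.trans_le (one_le_xm v.val P))
  have hip : ∀ P : SPt a b, 0 < ∏ w : InfinitePlace K, xm w.val P ^ w.mult := fun P =>
    Finset.prod_pos fun w _ => pow_pos (zero_lt_one.trans_le (one_le_xm w.val P)) _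
  have hNp : 0 < ∏ v ∈ V, N v ^ 2 := Finset.prod_pos fun v _ => pow_pos (by
    linarith [hN1 v]) _
  have hmain : mulHeight Q.xRep * ∏ v ∈ V, N v ^ 2 ≤
      (Ci * ∏ᶠ v, Cf v) * (mulHeight (m • Q).xRep * mulHeight (n • Q).xRep) := by
    rw [hht Q, hht (m • Q), hht (n • Q)]
    calc (∏ w : InfinitePlace K, xm w.val Q ^ w.mult) * (∏ᶠ v : FinitePlace K, xm v.val Q) *
          ∏ v ∈ V, N v ^ 2
        = (∏ w : InfinitePlace K, xm w.val Q ^ w.mult) *
          ((∏ᶠ v : FinitePlace K, xm v.val Q) * ∏ v ∈ V, N v ^ 2) := by ring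
      _ ≤ (Ci * ((∏ w : InfinitePlace K, xm w.val (m • Q) ^ w.mult) *
          ∏ w : InfinitePlace K, xm w.val (n • Q) ^ w.mult)) *
          ((∏ᶠ v, Cf v) * ((∏ᶠ v : FinitePlace K, xm v.val (m • Q)) *
          ∏ᶠ v : FinitePlace K, xm v.val (n • Q))) := by
          refine mul_le_mul hinf hfin (mul_nonneg (hfp _).le hNp.le) ?_
          exact mul_nonneg hCi0.le (mul_nonneg (hip _).le (hip _).le)
      _ = _ := by ring
  have hlog := Real.log_le_log (mul_pos (hpos Q) hNp) hmain
  rw [Real.log_mul (hpos Q).ne' hNp.ne', Real.log_mul (mul_pos hCi0 hCf0).ne'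
    (mul_pos (hpos _) (hpos _)).ne', Real.log_mul (hpos _).ne' (hpos _).ne',
    Real.log_prod (fun v _ => (pow_pos (by linarith [hN1 v]) _).ne')] at hlog
  have e3 : ∑ v ∈ V, Real.log (N v ^ 2) = 2 * ∑ v ∈ V, Real.log (N v) := by
    rw [Finset.mul_sum]
    refine Finset.sum_congr rfl fun v _ => ?_
    rw [Real.log_pow]
    push_cast
    rfl
  rw [e3] at hlog
  unfold sht
  rw [logHeight_eq_log_mulHeight, logHeight_eq_log_mulHeight, logHeight_eq_log_mulHeight]
  linarith

end fin

end Pool.Agent.NH29.VE
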