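import Mathlib
import Pool.Agent.Y733.VR.Disc
import Pool.Agent.TeamU.Unr
import Pool.Agent.Y729.DB.Norm

set_option autoImplicit false

/-!
Parity of valuations and ramification in extensions by a square root.
-/

namespace Pool.Agent.NH29.VE

open NumberField Module IntermediateField Polynomial IsDedekindDomain

section

variable {M : Type} [Field M] [NumberField M]

/-- the valuation of `x` at `v` is even -/
def Ev (v : HeightOneSpectrum (𝓞 M)) (x : M) : Prop :=
  ∃ y : M, y ≠ 0 ∧ v.valuation M x = v.valuation M y ^ 2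

lemma ev_of_one {v : HeightOneSpectrum (𝓞 M)} {x : M} (h : v.valuation M x = 1) : Ev v x :=
  ⟨1, one_ne_zero, by rw [h, map_one, one_pow]⟩

lemma val_exp (v : HeightOneSpectrum (𝓞 M)) {x : M} (hx : x ≠ 0) :
    ∃ n : ℤ, v.valuation M x = WithZero.exp n := by
  refine ⟨WithZero.log (v.valuation M x), ?_⟩
  rw [WithZero.exp_log]
  exact (Valuation.ne_zero_iff _).2 hx

lemma ev_iff {v : HeightOneSpectrum (𝓞 M)} {x : M} {n : ℤ}
    (h : v.valuation M x = WithZero.exp n) : Ev v x ↔ Even n := by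
  constructor
  · rintro ⟨y, hy, h2⟩
    obtain ⟨m, hm⟩ := val_exp v hy
    rw [h, hm, ← WithZero.exp_nsmul, WithZero.exp_inj] at h2
    exact ⟨m, by rw [h2, two_nsmul]⟩
  · rintro ⟨m, hm⟩
    obtain ⟨π, hπ⟩ := v.valuation_exists_uniformizer M
    have hπ0 : π ≠ 0 := by
      rintro rfl
      rw [map_zero] at hπ
      exact WithZero.exp_ne_zero hπ.symm
    refine ⟨π ^ (-m), zpow_ne_zero _ hπ0, ?_⟩
    rw [h, map_zpow₀, hπ, ← WithZero.exp_zsmul, ← WithZero.exp_nsmul, hm]
    congr 1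
    simp
    ring

lemma ev_mul {v : HeightOneSpectrum (𝓞 M)} {x x' : M} (hx : x ≠ 0) (hx' : x' ≠ 0)
    (h : ¬ Ev v x) (h' : ¬ Ev v x') : Ev v (x * x') := by
  obtain ⟨n, hn⟩ := val_exp v hx
  obtain ⟨n', hn'⟩ := val_exp v hx'
  rw [ev_iff hn, Int.not_even_iff_odd] at h
  rw [ev_iff hn', Int.not_even_iff_odd] at h'
  have h2 : v.valuation M (x * x') = WithZero.exp (n + n') := by
    rw [map_mul, hn, hn', WithZero.exp_add]
  rw [ev_iff h2]
  exact h.add_odd h'

end

section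

variable {M E : Type} [Field M] [NumberField M] [Field E] [NumberField E] [Algebra M E]

lemma ev_up {v : HeightOneSpectrum (𝓞 M)} {P : HeightOneSpectrum (𝓞 E)}
    (hP : P.asIdeal.comap (algebraMap (𝓞 M) (𝓞 E)) = v.asIdeal) {x : M} (h : Ev v x) :
    Ev P (algebraMap M E x) := by
  obtain ⟨y, hy, h2⟩ := h
  refine ⟨algebraMap M E y, (_root_.map_ne_zero _).2 hy, ?_⟩
  rw [TeamU.val_over hP, TeamU.val_over hP, h2, ← pow_mul, ← pow_mul, mul_comm]

/-- `E = M(z)`, `z² = x` with even valuation at `v`, `v` odd: the primes above `v` do not divide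
the different. -/
theorem ndvd_of_even (v : HeightOneSpectrum (𝓞 M)) {x : M} {z : E}
    (hx : x ≠ 0) (hz : z ^ 2 = algebraMap M E x) (htop : M⟮z⟯ = ⊤) (hv2 : (2 : 𝓞 M) ∉ v.asIdeal)
    (hev : Ev v x) (P : HeightOneSpectrum (𝓞 E))
    (hP : P.asIdeal.comap (algebraMap (𝓞 M) (𝓞 E)) = v.asIdeal) :
    ¬ P.asIdeal ∣ differentIdeal (𝓞 M) (𝓞 E) := by
  obtain ⟨y, hy0, hy⟩ := hev
  have hvy : v.valuation M y ≠ 0 := (Valuation.ne_zero_iff _).2 hy0
  have hx1 : v.valuation M (x / y ^ 2) = 1 := by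
    rw [map_div₀, map_pow, hy, div_self (pow_ne_zero _ hvy)]
  obtain ⟨n, d, hd, hnd⟩ := TeamU.exists_den v (x / y ^ 2) hx1.le
  have hvd : v.valuation M (d : M) = 1 := by
    rw [HeightOneSpectrum.valuation_eq_one_iff_notMem]; exact hd
  have hd0 : (d : M) ≠ 0 := by
    intro h0; rw [h0, map_zero] at hvd; exact zero_ne_one hvd
  have hvn : v.valuation M (n : M) = 1 := by rw [← hnd, map_mul, hx1, hvd, one_mul]
  set w : E := algebraMap M E (d : M) * z / algebraMap M E y with hw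
  have hyE : algebraMap M E y ≠ 0 := by simpa using hy0
  have hdE : algebraMap M E (d : M) ≠ 0 := by simpa using hd0
  have hw2 : w ^ 2 = algebraMap M E ((d : M) * (n : M)) := by
    rw [hw, div_pow, mul_pow, hz, ← hnd, map_mul, map_mul, map_div₀, map_pow]
    field_simp
  have hwint : IsIntegral ℤ w := by
    apply IsIntegral.of_pow (n := 2) (by norm_num)
    rw [hw2]
    have : algebraMap M E ((d : M) * (n : M)) =
        ((algebraMap (𝓞 M) (𝓞 E) (d * n) : 𝓞 E) : E) := by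
      rw [← map_mul]; rfl
    rw [this]
    exact RingOfIntegers.isIntegral_coe _
  let θ : 𝓞 E := ⟨w, hwint⟩
  have hθw : (θ : E) = w := rfl
  have hθ2 : θ ^ 2 = algebraMap (𝓞 M) (𝓞 E) (d * n) := by
    apply RingOfIntegers.ext
    change w ^ 2 = _
    rw [hw2]
    rw [← map_mul]; rfl
  have htop' : M⟮(θ : E)⟯ = ⊤ := by
    rw [eq_top_iff, ← htop, adjoin_simple_le_iff]
    have h1 : (θ : E) ∈ M⟮(θ : E)⟯ := mem_adjoin_simple_self M _
    have h2 : z = algebraMap M E y / algebraMap M E (d : M) * (θ : E) := by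
      rw [hθw, hw]; field_simp
    rw [h2]
    exact mul_mem (div_mem (_root_.algebraMap_mem _ _) (_root_.algebraMap_mem _ _)) h1
  have hroot : aeval θ (X ^ 2 - C (d * n) : (𝓞 M)[X]) = 0 := by
    rw [map_sub, map_pow, aeval_X, aeval_C, hθ2, sub_self]
  have hder : aeval θ (derivative (X ^ 2 - C (d * n) : (𝓞 M)[X])) = 2 * θ := by
    simp
    left
    norm_num
  have hmem := Y733.VR.deriv_mem M E θ htop' _ hroot
  rw [hder] at hmem
  have hPd : ∀ m : 𝓞 M, m ∉ v.asIdeal → algebraMap (𝓞 M) (𝓞 E) m ∉ P.asIdeal := by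
    intro m hm hmem
    apply hm
    rw [← hP]
    exact hmem
  intro hdvd
  rw [Ideal.dvd_iff_le] at hdvd
  have hmem' := hdvd hmem
  rcases P.isPrime.mem_or_mem hmem' with h | h
  · exact hPd 2 hv2 (by rw [map_ofNat]; exact h)
  · have h3 : θ ^ 2 ∈ P.asIdeal := by rw [sq]; exact P.asIdeal.mul_mem_left _ h
    rw [hθ2] at h3
    refine hPd (d * n) ?_ h3
    intro h4
    rcases v.isPrime.mem_or_mem h4 with h5 | h5
    · exact hd h5
    · rw [← HeightOneSpectrum.valuation_lt_one_iff_mem (K := M)] at h5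
      exact absurd hvn (ne_of_lt h5)

end

end Pool.Agent.NH29.VE
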