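import Mathlib
import Pool.Agent.NH29.VE.Ev

set_option autoImplicit false

/-!
The discriminant of an extension generated by square roots.
-/

namespace Pool.Agent.NH29.VE

open NumberField Module IntermediateField Polynomial IsDedekindDomain

section

variable {k K : Type} [Field k] [NumberField k] [Field K] [NumberField K] [Algebra k K]

attribute [local instance] FractionRing.liftAlgebra FractionRing.isScalarTower_liftAlgebra

lemma norm_pos (v : HeightOneSpectrum (𝓞 k)) : 0 < Ideal.absNorm v.asIdeal :=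
  Nat.pos_of_ne_zero (fun h => v.ne_bot (Ideal.absNorm_eq_zero_iff.1 h))

/-- the sum over the primes above a finite set -/
lemma sum_above (V : Finset (HeightOneSpectrum (𝓞 k))) (W : Finset (HeightOneSpectrum (𝓞 K)))
    (h : ∀ w ∈ W, ∃ v ∈ V, w.asIdeal.comap (algebraMap (𝓞 k) (𝓞 K)) = v.asIdeal) :
    ∑ w ∈ W, Real.log (Ideal.absNorm w.asIdeal : ℝ) ≤
      finrank k K * ∑ v ∈ V, Real.log (Ideal.absNorm v.asIdeal : ℝ) := by
  classical
  have hfr : finrank (𝓞 k) (𝓞 K) = finrank k K :=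
    (IsFractionRing.finrank_eq (𝓞 k) k (𝓞 K) K).symm
  have hdvd : (∏ w ∈ W, w.asIdeal) ∣ ∏ v ∈ V, v.asIdeal.map (algebraMap (𝓞 k) (𝓞 K)) := by
    refine Finset.prod_dvd_of_coprime ?_ fun w hw => ?_
    · intro v _ w _ hvw
      show IsCoprime v.asIdeal w.asIdeal
      rw [Ideal.isCoprime_iff_sup_eq]
      by_contra h
      have h1 : v.asIdeal = v.asIdeal ⊔ w.asIdeal :=
        Ideal.IsMaximal.eq_of_le v.isMaximal h le_sup_left
      have h2 : w.asIdeal = v.asIdeal ⊔ w.asIdeal :=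
        Ideal.IsMaximal.eq_of_le w.isMaximal h le_sup_right
      exact hvw (HeightOneSpectrum.ext (h1.trans h2.symm))
    · obtain ⟨v, hv, hw⟩ := h w hw
      refine Dvd.dvd.trans ?_ (Finset.dvd_prod_of_mem _ hv)
      rw [Ideal.dvd_iff_le, Ideal.map_le_iff_le_comap]
      exact hw.ge
  have h1 := map_dvd (Ideal.absNorm (S := 𝓞 K)) hdvd
  rw [map_prod, map_prod] at h1
  have hpos : 0 < ∏ v ∈ V, Ideal.absNorm (v.asIdeal.map (algebraMap (𝓞 k) (𝓞 K))) :=
    Finset.prod_pos fun v _ => by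
      rw [Ideal.absNorm_algebraMap]
      exact pow_pos (norm_pos v) _
  have h2 := Nat.le_of_dvd hpos h1
  have h3 : Real.log ((∏ w ∈ W, Ideal.absNorm w.asIdeal : ℕ) : ℝ) ≤
      Real.log ((∏ v ∈ V, Ideal.absNorm (v.asIdeal.map (algebraMap (𝓞 k) (𝓞 K))) : ℕ) : ℝ) := by
    refine Real.log_le_log ?_ (by exact_mod_cast h2)
    exact_mod_cast (Finset.prod_pos fun w _ => norm_pos w)
  rw [Nat.cast_prod, Nat.cast_prod, Real.log_prod (fun w _ => by exact_mod_cast (norm_pos w).ne'),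
    Real.log_prod (fun v _ => by
      rw [Ideal.absNorm_algebraMap]
      exact_mod_cast (pow_pos (norm_pos v) _).ne')] at h3
  refine h3.trans (le_of_eq ?_)
  rw [Finset.mul_sum]
  refine Finset.sum_congr rfl fun v _ => ?_
  rw [Ideal.absNorm_algebraMap, hfr, Nat.cast_pow, Real.log_pow]

lemma finite_above (V : Finset (HeightOneSpectrum (𝓞 k))) :
    {w : HeightOneSpectrum (𝓞 K) | ∃ v ∈ V,
      w.asIdeal.comap (algebraMap (𝓞 k) (𝓞 K)) = v.asIdeal}.Finite := by
  have h : {w : HeightOneSpectrum (𝓞 K) | ∃ v ∈ V,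
      w.asIdeal.comap (algebraMap (𝓞 k) (𝓞 K)) = v.asIdeal} ⊆
      ⋃ v ∈ V, {w : HeightOneSpectrum (𝓞 K) | w.asIdeal ∣
        v.asIdeal.map (algebraMap (𝓞 k) (𝓞 K))} := by
    rintro w ⟨v, hv, hw⟩
    simp only [Set.mem_iUnion]
    refine ⟨v, hv, ?_⟩
    show w.asIdeal ∣ _
    rw [Ideal.dvd_iff_le, Ideal.map_le_iff_le_comap]
    exact hw.ge
  refine Set.Finite.subset (Set.Finite.biUnion V.finite_toSet fun v _ => ?_) h
  refine Ideal.finite_factors ?_
  intro h0
  apply v.ne_bot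
  rw [Ideal.zero_eq_bot, Ideal.map_eq_bot_iff_of_injective
    (FaithfulSMul.algebraMap_injective _ _)] at h0
  exact h0

variable {E : Type} [Field E] [NumberField E] [Algebra k E] [Algebra K E] [IsScalarTower k K E]

/-- one quadratic step -/
lemma ld_step (V : Finset (HeightOneSpectrum (𝓞 k))) (h2 : finrank K E ≤ 2)
    (hV : ∀ P : HeightOneSpectrum (𝓞 E), P.asIdeal ∣ differentIdeal (𝓞 K) (𝓞 E) →
      ∃ v ∈ V, P.asIdeal.comap (algebraMap (𝓞 k) (𝓞 E)) = v.asIdeal) :
    Y733.VR.ld E ≤ Y733.VR.ld K +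
      (1 / 2 * ∑ v ∈ V, Real.log (Ideal.absNorm v.asIdeal : ℝ)) / finrank ℚ k + Real.log 2 := by
  classical
  set W : Finset (HeightOneSpectrum (𝓞 K)) := (finite_above (K := K) V).toFinset with hW
  have hWm : ∀ w, w ∈ W ↔ ∃ v ∈ V, w.asIdeal.comap (algebraMap (𝓞 k) (𝓞 K)) = v.asIdeal := by
    intro w; rw [hW, Set.Finite.mem_toFinset]; rfl
  have hS := sum_above (K := K) V W (fun w hw => (hWm w).1 hw)
  have hcomp : (algebraMap (𝓞 k) (𝓞 E)) = (algebraMap (𝓞 K) (𝓞 E)).comp
      (algebraMap (𝓞 k) (𝓞 K)) := IsScalarTower.algebraMap_eq _ _ _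
  have hd := Y729.DB.disc_le (k := K) (F := E) W (by
    intro P hP
    obtain ⟨v, hv, h1⟩ := hV P hP
    have hprime : (P.asIdeal.comap (algebraMap (𝓞 K) (𝓞 E))).IsPrime := inferInstance
    have hne : P.asIdeal.comap (algebraMap (𝓞 K) (𝓞 E)) ≠ ⊥ := by
      intro h0
      exact P.ne_bot (Ideal.eq_bot_of_comap_eq_bot (R := 𝓞 K) h0)
    refine ⟨⟨_, hprime, hne⟩, (hWm _).2 ⟨v, hv, ?_⟩, rfl⟩
    rw [← h1, hcomp, ← Ideal.comap_comap])
  have hk : (0 : ℝ) < finrank ℚ k := by exact_mod_cast finrank_pos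
  have hkK : (0 : ℝ) < finrank k K := by
    have : FiniteDimensional k K := FiniteDimensional.right ℚ k K
    exact_mod_cast finrank_pos
  have hKE0 : 0 < finrank K E := by
    have : FiniteDimensional K E := FiniteDimensional.right ℚ K E
    exact finrank_pos
  have e1 := Y733.VR.finrank_tower k K
  have e2 := Y733.VR.finrank_tower K E
  set S : ℝ := ∑ v ∈ V, Real.log (Ideal.absNorm v.asIdeal : ℝ) with hSdef
  have hS0 : 0 ≤ S := Finset.sum_nonneg fun v _ => Real.log_natCast_nonneg _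
  have hlog2 : 0 ≤ Real.log 2 := Real.log_nonneg (by norm_num)
  unfold Y733.VR.ld
  rw [e2]
  have hcases : finrank K E = 1 ∨ finrank K E = 2 := by omega
  have hKpos : (0 : ℝ) < finrank ℚ K := by rw [e1]; positivity
  rcases hcases with h | h
  · rw [h] at hd ⊢
    simp only [Nat.cast_one, one_mul, sub_self, zero_mul, add_zero, Nat.factorial_one,
      Real.log_one, mul_zero, mul_one] at hd ⊢
    have : Real.log |(discr E : ℝ)| / finrank ℚ K ≤ Real.log |(discr K : ℝ)| / finrank ℚ K := by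
      gcongr
    have : 0 ≤ 1 / 2 * S / finrank ℚ k := by positivity
    linarith
  · rw [h] at hd ⊢
    have h22 : ((2 : ℕ).factorial : ℝ) = 2 := by norm_num [Nat.factorial]
    rw [h22] at hd
    push_cast at hd ⊢
    rw [div_le_iff₀ (by positivity)]
    have h5 : (Real.log |(discr K : ℝ)| / finrank ℚ K + 1 / 2 * S / finrank ℚ k + Real.log 2) *
        (finrank ℚ K * 2) = 2 * Real.log |(discr K : ℝ)| + finrank k K * S +
          2 * (finrank ℚ K * Real.log 2) := by
      rw [e1]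
      field_simp
    rw [h5]
    linarith

end

end Pool.Agent.NH29.VE
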