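import Mathlib
import Pool.Agent.NH29.VE.Disc

set_option autoImplicit false

/-!
The discriminant of an extension generated by several square roots.
-/

namespace Pool.Agent.NH29.VE

open NumberField Module IntermediateField Polynomial IsDedekindDomain

theorem adjoin_self_top {K E : Type*} [Field K] [Field E] [Algebra K E] (S : Set E)
    (T : Set (IntermediateField.adjoin K S)) (hT : Subtype.val '' T = S) :
    IntermediateField.adjoin K T = ⊤ := by
  apply IntermediateField.lift_injective
  rw [IntermediateField.lift_adjoin, IntermediateField.lift_top, hT]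

lemma finrank_sqrt {K E : Type} [Field K] [NumberField K] [Field E] [NumberField E] [Algebra K E]
    {a : K} {z : E} (hz : z ^ 2 = algebraMap K E a) (htop : K⟮z⟯ = ⊤) : finrank K E ≤ 2 := by
  have hpm : (X ^ 2 - C a : K[X]).Monic := monic_X_pow_sub_C a two_ne_zero
  have hev : aeval z (X ^ 2 - C a : K[X]) = 0 := by
    rw [map_sub, map_pow, aeval_X, aeval_C, hz]
    exact sub_self _
  have hint : IsIntegral K z := ⟨X ^ 2 - C a, hpm, by rw [← aeval_def]; exact hev⟩
  rw [← IntermediateField.finrank_top', ← htop, adjoin.finrank hint]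
  refine (natDegree_le_of_dvd (minpoly.dvd K z hev) hpm.ne_zero).trans ?_
  rw [natDegree_X_pow_sub_C]

/-- the field generated by square roots of elements of `k` -/
theorem ld_multi (k : Type) [Field k] [NumberField k] (P2 : Finset (HeightOneSpectrum (𝓞 k)))
    (hP2 : ∀ v : HeightOneSpectrum (𝓞 k), (2 : 𝓞 k) ∈ v.asIdeal → v ∈ P2)
    (V : Finset (HeightOneSpectrum (𝓞 k))) (m : ℕ) :
    ∀ (F : Type) [Field F] [NumberField F] [Algebra k F] (u : Fin m → k) (w : Fin m → F),
      (∀ i, u i ≠ 0) → (∀ i, w i ^ 2 = algebraMap k F (u i)) →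
      IntermediateField.adjoin k (Set.range w) = ⊤ → (∀ v, v ∉ V → ∀ i, Ev v (u i)) →
      finrank k F ≤ 2 ^ m ∧
      ∃ V' : Finset (HeightOneSpectrum (𝓞 k)), (∀ v, v ∈ V' ↔ ∃ i, ¬ Ev v (u i)) ∧
      Y733.VR.ld F ≤ Y733.VR.ld k +
        (1 / 2 * ∑ v ∈ V', Real.log (Ideal.absNorm v.asIdeal : ℝ)) / finrank ℚ k +
        m * ((1 / 2 * ∑ v ∈ P2, Real.log (Ideal.absNorm v.asIdeal : ℝ)) / finrank ℚ k +
          Real.log 2) := by
  classical
  have hk : (0 : ℝ) < finrank ℚ k := by exact_mod_cast finrank_pos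
  induction m with
  | zero =>
    intro F _ _ _ u w hu hw htop hV
    have h1 : (⊥ : IntermediateField k F) = ⊤ := by
      rw [← htop]
      symm
      rw [Set.range_eq_empty, adjoin_empty]
    have hfr : finrank k F = 1 := by
      rw [← IntermediateField.finrank_top', ← h1]
      exact IntermediateField.finrank_bot
    refine ⟨by rw [hfr, pow_zero], ∅, fun v => ?_, ?_⟩
    · simp
    · have h0 : k⟮((0 : 𝓞 F) : F)⟯ = ⊤ := by
        have e : ((0 : 𝓞 F) : F) = 0 := rfl
        rw [e, adjoin_zero, h1]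
      have h2 := Y733.VR.ld_le k F 0 h0 X (by simp) (by simp)
      simp only [derivative_X, map_one, Rat.cast_one, abs_one, Real.log_one, zero_div,
        add_zero] at h2
      simpa using h2
  | succ m ih =>
    intro F _ _ _ u w hu hw htop hV
    set S : Set F := Set.range (fun i : Fin m => w i.castSucc) with hS
    let K : IntermediateField k F := adjoin k S
    have hwm : ∀ i : Fin m, w i.castSucc ∈ K := fun i => subset_adjoin k S ⟨i, rfl⟩
    let w' : Fin m → K := fun i => ⟨w i.castSucc, hwm i⟩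
    have htop' : adjoin k (Set.range w') = ⊤ := by
      refine adjoin_self_top S (Set.range w') ?_
      rw [← Set.range_comp]
      rfl
    obtain ⟨ih1, V', hV', ih2⟩ := ih K (fun i => u i.castSucc) w' (fun i => hu _)
      (fun i => Subtype.ext (hw i.castSucc)) htop' (fun v hv i => hV v hv _)
    set z : F := w (Fin.last m) with hz
    have htopz : K⟮z⟯ = ⊤ := by
      have h3 : adjoin k (Set.range w) ≤ (K⟮z⟯).restrictScalars k := by
        rw [adjoin_le_iff]
        rintro _ ⟨i, rfl⟩
        rw [SetLike.mem_coe, mem_restrictScalars]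
        refine Fin.lastCases ?_ (fun j => ?_) i
        · exact mem_adjoin_simple_self K z
        · exact (K⟮z⟯).algebraMap_mem (w' j)
      rw [htop, top_le_iff] at h3
      apply restrictScalars_injective k
      rw [h3]
      rfl
    have hzsq : z ^ 2 = algebraMap K F (algebraMap k K (u (Fin.last m))) := hw _
    have hf2 : finrank K F ≤ 2 := finrank_sqrt hzsq htopz
    refine ⟨?_, V.filter (fun v => ∃ i, ¬ Ev v (u i)), fun v => ?_, ?_⟩
    · rw [← finrank_mul_finrank k K F, pow_succ]
      exact Nat.mul_le_mul ih1 hf2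
    · rw [Finset.mem_filter]
      constructor
      · exact fun h => h.2
      · intro h
        refine ⟨?_, h⟩
        by_contra hv
        obtain ⟨i, hi⟩ := h
        exact hi (hV v hv i)
    set Vn := V.filter (fun v => ∃ i, ¬ Ev v (u i)) with hVn
    have hsub : V' ⊆ Vn := by
      intro v hv
      obtain ⟨i, hi⟩ := (hV' v).1 hv
      rw [hVn, Finset.mem_filter]
      refine ⟨?_, i.castSucc, hi⟩
      by_contra hv'
      exact hi (hV v hv' _)
    have hstep := ld_step (k := k) (K := K) (E := F) ((Vn \ V') ∪ P2) hf2 (by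
      intro P hP
      have hprime : (P.asIdeal.comap (algebraMap (𝓞 k) (𝓞 F))).IsPrime := inferInstance
      have hne : P.asIdeal.comap (algebraMap (𝓞 k) (𝓞 F)) ≠ ⊥ := by
        intro h0
        exact P.ne_bot (Ideal.eq_bot_of_comap_eq_bot (R := 𝓞 k) h0)
      set v : HeightOneSpectrum (𝓞 k) := ⟨_, hprime, hne⟩ with hv
      refine ⟨v, ?_, rfl⟩
      by_contra hcon
      rw [Finset.mem_union, not_or, Finset.mem_sdiff, not_and, not_not] at hcon
      obtain ⟨hc1, hc2⟩ := hcon
      have hv2 : (2 : 𝓞 k) ∉ v.asIdeal := fun h => hc2 (hP2 v h)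
      have hprimeK : (P.asIdeal.comap (algebraMap (𝓞 K) (𝓞 F))).IsPrime := inferInstance
      have hneK : P.asIdeal.comap (algebraMap (𝓞 K) (𝓞 F)) ≠ ⊥ := by
        intro h0
        exact P.ne_bot (Ideal.eq_bot_of_comap_eq_bot (R := 𝓞 K) h0)
      set p : HeightOneSpectrum (𝓞 K) := ⟨_, hprimeK, hneK⟩ with hp
      have hcomp : (algebraMap (𝓞 k) (𝓞 F)) = (algebraMap (𝓞 K) (𝓞 F)).comp
          (algebraMap (𝓞 k) (𝓞 K)) := IsScalarTower.algebraMap_eq _ _ _
      have hpv : p.asIdeal.comap (algebraMap (𝓞 k) (𝓞 K)) = v.asIdeal := by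
        show (P.asIdeal.comap (algebraMap (𝓞 K) (𝓞 F))).comap _ = P.asIdeal.comap _
        rw [hcomp, ← Ideal.comap_comap]
      have hp2 : (2 : 𝓞 K) ∉ p.asIdeal := by
        intro h
        apply hv2
        rw [← hpv, Ideal.mem_comap, map_ofNat]
        exact h
      by_cases hev : Ev v (u (Fin.last m))
      · refine ndvd_of_even p ?_ hzsq htopz hp2 (ev_up hpv hev) P rfl hP
        exact (_root_.map_ne_zero _).2 (hu _)
      · have hvn : v ∈ Vn := by
          rw [hVn, Finset.mem_filter]
          refine ⟨?_, Fin.last m, hev⟩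
          by_contra hv'
          exact hev (hV v hv' _)
        obtain ⟨i, hi⟩ := (hV' v).1 (hc1 hvn)
        have hev2 := ev_mul (hu i.castSucc) (hu (Fin.last m)) hi hev
        have hwi0 : w i.castSucc ≠ 0 := by
          intro h0
          have := hw i.castSucc
          rw [h0, zero_pow two_ne_zero] at this
          exact (_root_.map_ne_zero (algebraMap k F)).2 (hu _) this.symm
        have hz2 : ((w' i : F) * z) ^ 2 =
            algebraMap K F (algebraMap k K (u i.castSucc * u (Fin.last m))) := by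
          rw [mul_pow, map_mul, map_mul, ← hzsq]
          congr 1
          exact hw i.castSucc
        have htop2 : K⟮((w' i : F) * z)⟯ = ⊤ := by
          rw [eq_top_iff, ← htopz, adjoin_simple_le_iff]
          have h1 : (w' i : F) * z ∈ K⟮((w' i : F) * z)⟯ := mem_adjoin_simple_self K _
          have h2 : z = ((w' i : F) * z) / algebraMap K F (w' i) := by
            have : algebraMap K F (w' i) = w i.castSucc := rfl
            rw [this]
            have h' : (w' i : F) = w i.castSucc := rfl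
            rw [h']
            field_simp
          have h3 : ((w' i : F) * z) / algebraMap K F (w' i) ∈ K⟮((w' i : F) * z)⟯ :=
            div_mem h1 (_root_.algebraMap_mem _ _)
          rwa [← h2] at h3
        refine ndvd_of_even p ?_ hz2 htop2 hp2 (ev_up hpv hev2) P rfl hP
        exact (_root_.map_ne_zero _).2 (mul_ne_zero (hu _) (hu _)))
    have hsum : ∑ v ∈ (Vn \ V') ∪ P2, Real.log (Ideal.absNorm v.asIdeal : ℝ) ≤
        ∑ v ∈ Vn \ V', Real.log (Ideal.absNorm v.asIdeal : ℝ) +
          ∑ v ∈ P2, Real.log (Ideal.absNorm v.asIdeal : ℝ) := by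
      rw [← Finset.sum_union_inter]
      have : 0 ≤ ∑ v ∈ (Vn \ V') ∩ P2, Real.log (Ideal.absNorm v.asIdeal : ℝ) :=
        Finset.sum_nonneg fun v _ => Real.log_natCast_nonneg _
      linarith
    have hsum2 := Finset.sum_sdiff (f := fun v : HeightOneSpectrum (𝓞 k) =>
      Real.log (Ideal.absNorm v.asIdeal : ℝ)) hsub
    rw [← hsum2]
    have h6 : (1 / 2 * ∑ v ∈ (Vn \ V') ∪ P2, Real.log (Ideal.absNorm v.asIdeal : ℝ)) /
        finrank ℚ k ≤ (1 / 2 * (∑ v ∈ Vn \ V', Real.log (Ideal.absNorm v.asIdeal : ℝ) +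
          ∑ v ∈ P2, Real.log (Ideal.absNorm v.asIdeal : ℝ))) / finrank ℚ k := by
      gcongr
    push_cast
    have h7 : (1 / 2 * (∑ v ∈ Vn \ V', Real.log (Ideal.absNorm v.asIdeal : ℝ) +
          ∑ v ∈ P2, Real.log (Ideal.absNorm v.asIdeal : ℝ))) / (finrank ℚ k : ℝ) =
        (1 / 2 * (∑ v ∈ Vn \ V', Real.log (Ideal.absNorm v.asIdeal : ℝ))) / finrank ℚ k +
        (1 / 2 * (∑ v ∈ P2, Real.log (Ideal.absNorm v.asIdeal : ℝ))) / finrank ℚ k := by ring
    have h8 : (1 / 2 * (∑ v ∈ Vn \ V', Real.log (Ideal.absNorm v.asIdeal : ℝ) +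
          ∑ v ∈ V', Real.log (Ideal.absNorm v.asIdeal : ℝ))) / (finrank ℚ k : ℝ) =
        (1 / 2 * (∑ v ∈ Vn \ V', Real.log (Ideal.absNorm v.asIdeal : ℝ))) / finrank ℚ k +
        (1 / 2 * (∑ v ∈ V', Real.log (Ideal.absNorm v.asIdeal : ℝ))) / finrank ℚ k := by ring
    rw [h8]
    rw [h7] at h6
    linarith

end Pool.Agent.NH29.VE
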