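import Mathlib
import Pool.Agent.NH29.VE.Multi
import Pool.Agent.NH29.VE.Glob

set_option autoImplicit false
set_option linter.unusedSectionVars false

/-!
Fields generated by square roots of the `y`-coordinates of multiples of a point.
-/

namespace Pool.Agent.NH29.VE

open NumberField WeierstrassCurve IsDedekindDomain Height Function Module
open Pool.Agent.TH942 Pool.Agent.TH954

section coords

variable {K : Type} [Field K]

/-- the `x`-coordinate -/
noncomputable def xc {a b : K} : SPt a b → K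
  | .zero => 0
  | .some x _ _ => x

/-- the `y`-coordinate -/
noncomputable def yc {a b : K} : SPt a b → K
  | .zero => 0
  | .some _ y _ => y

lemma eqn_of_ne {a b : K} {P : SPt a b} (hP : P ≠ 0) :
    yc P ^ 2 = xc P ^ 3 + a * xc P + b := by
  match P with
  | .zero => exact absurd rfl hP
  | .some x y h => exact sw_eqn.mp h.1

end coords

section fin

variable {k : Type} [Field k] [NumberField k]

lemma xm_fin {a b : k} (P : SPt a b) :
    (fun v : FinitePlace k => xm v.val P).HasFiniteMulSupport := by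
  by_cases hP : P = 0
  · have : (fun v : FinitePlace k => xm v.val P) = fun _ => 1 := by
      funext v
      rw [hP]
      unfold xm
      rw [show (0 : SPt a b).xRep = ![1, 0] from Affine.Point.xRep_zero, sup_two,
        v.val.map_one, v.val.map_zero]
      norm_num
    rw [this]
    exact hasFiniteMulSupport_fun_one
  · obtain ⟨x, y, h, rfl⟩ := exists_some hP
    have : (fun v : FinitePlace k => xm v.val (Affine.Point.some x y h : SPt a b)) =
        fun v => max (v x) 1 := by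
      funext v
      exact xm_some _ _
    rw [this]
    exact max_fin x

lemma big_fin {a b : k} (P : SPt a b) : {v : FinitePlace k | 1 < xm v.val P}.Finite := by
  refine Set.Finite.subset (xm_fin P) ?_
  intro v hv
  exact ne_of_gt hv

/-- the bad places -/
lemma bad_fin (a b : k) (hD : 4 * a ^ 3 + 27 * b ^ 2 ≠ 0) :
    ∃ B : Finset (FinitePlace k), ∀ v : FinitePlace k, v ∉ B →
      v a ≤ 1 ∧ v b ≤ 1 ∧ v 2 = 1 ∧ v (4 * a ^ 3 + 27 * b ^ 2) = 1 := by
  classical
  have h1 : ∀ x : k, x ≠ 0 → {v : FinitePlace k | v x ≠ 1}.Finite := fun x hx =>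
    FinitePlace.hasFiniteMulSupport hx
  have h2 : ∀ x : k, {v : FinitePlace k | ¬ v x ≤ 1}.Finite := by
    intro x
    by_cases hx : x = 0
    · have : {v : FinitePlace k | ¬ v x ≤ 1} = ∅ := by
        ext v
        simp [hx]
      rw [this]
      exact Set.finite_empty
    · refine (h1 x hx).subset ?_
      intro v hv h
      exact hv (le_of_eq h)
  have h2' : (2 : k) ≠ 0 := two_ne_zero
  refine ⟨((h2 a).toFinset ∪ (h2 b).toFinset) ∪ ((h1 2 h2').toFinset ∪ (h1 _ hD).toFinset),
    fun v hv => ?_⟩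
  simp only [Finset.mem_union, Set.Finite.mem_toFinset, Set.mem_setOf_eq, not_or, not_not] at hv
  exact ⟨hv.1.1, hv.1.2, hv.2.1, hv.2.2⟩

lemma ev_of_abs {v : HeightOneSpectrum (𝓞 k)} {x : k} (h : FinitePlace.mk v x = 1) : Ev v x := by
  apply ev_of_one
  rw [H951R2.MS.fp_val, FinitePlace.maximalIdeal_mk] at h
  have h1 : WithZeroMulInt.toNNReal (NumberField.HeightOneSpectrum.absNorm_ne_zero v)
      (v.valuation k x) = 1 := by exact_mod_cast h
  rwa [WithZeroMulInt.toNNReal_eq_one_iff _ _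
    (NumberField.HeightOneSpectrum.one_lt_absNorm_nnreal v).ne'] at h1

lemma two_mem {v : HeightOneSpectrum (𝓞 k)} (h : (2 : 𝓞 k) ∈ v.asIdeal) :
    FinitePlace.mk v (2 : k) ≠ 1 := by
  have h1 := (H951R2.MS.fp_int_lt_one_iff (FinitePlace.mk v) (2 : 𝓞 k)).2 (by
    rw [FinitePlace.maximalIdeal_mk]; exact h)
  have e : (((2 : 𝓞 k)) : k) = 2 := by norm_cast
  rw [e] at h1
  exact ne_of_lt h1

/-- square roots -/
lemma exists_field (k : Type) [Field k] [NumberField k] {n : ℕ} (y : Fin n → k) :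
    ∃ (F : Type) (_ : Field F) (_ : NumberField F) (_ : Algebra k F) (w : Fin n → F),
      (∀ i, w i ^ 2 = algebraMap k F (y i)) ∧
      IntermediateField.adjoin k (Set.range w) = ⊤ := by
  have h : ∀ i, ∃ z : AlgebraicClosure k, z ^ 2 = algebraMap k (AlgebraicClosure k) (y i) :=
    fun i => IsAlgClosed.exists_pow_nat_eq _ (by norm_num)
  choose z hz using h
  have hint : ∀ x ∈ Set.range z, IsIntegral k x := by
    rintro _ ⟨i, rfl⟩
    exact Algebra.IsIntegral.isIntegral _
  have hfd : FiniteDimensional k (IntermediateField.adjoin k (Set.range z)) :=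
    IntermediateField.finiteDimensional_adjoin hint
  have hNF : NumberField (IntermediateField.adjoin k (Set.range z)) :=
    NumberField.of_module_finite k _
  refine ⟨IntermediateField.adjoin k (Set.range z), inferInstance, hNF, inferInstance,
    fun i => ⟨z i, IntermediateField.subset_adjoin k _ ⟨i, rfl⟩⟩, fun i => ?_, ?_⟩
  · exact Subtype.ext (hz i)
  · refine adjoin_self_top (Set.range z) _ ?_
    rw [← Set.range_comp]
    rfl

/-- the logarithmic discriminant relative to `k` -/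
noncomputable def lD (k : Type) [Field k] [NumberField k] (F : Type) [Field F]
    [NumberField F] [Algebra k F] : ℝ :=
  Real.log |(discr F : ℝ)| / finrank k F - Real.log |(discr k : ℝ)|

lemma lD_eq (F : Type) [Field F] [NumberField F] [Algebra k F] :
    lD k F = finrank ℚ k * (Y733.VR.ld F - Y733.VR.ld k) := by
  have hk : (0 : ℝ) < finrank ℚ k := by exact_mod_cast finrank_pos
  have hkF : (0 : ℝ) < finrank k F := by
    have : FiniteDimensional k F := FiniteDimensional.right ℚ k F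
    exact_mod_cast finrank_pos
  unfold lD Y733.VR.ld
  rw [Y733.VR.finrank_tower k F]
  field_simp

variable [DecidableEq k]

lemma y_ne {a b : k} {P : SPt a b} (hP : P ≠ 0) (h2P : (2 : ℕ) • P ≠ 0) : yc P ≠ 0 := by
  obtain ⟨x, y, h, rfl⟩ := exists_some hP
  obtain ⟨X, Y, H, hX⟩ := exists_some h2P
  exact (dup hX).1

/-- the discriminant of the field of the point -/
theorem disc_pts (A B : k) (hD : 4 * A ^ 3 + 27 * B ^ 2 ≠ 0) {n : ℕ} {i j : Fin n}
    (R : Fin n → SPt A B) (a b : ℕ) :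
    ∃ C : ℝ, ∀ (T : SPt A B) (P : Fin n → SPt A B), (2 : ℕ) • T ≠ 0 → (∀ l, P l ≠ 0) →
      (∀ l, (2 : ℕ) • P l ≠ 0) → P i = a • T → P j = b • T →
      (∀ l, l ≠ i → l ≠ j → P l = R l) →
      ∃ (F : Type) (_ : Field F) (_ : NumberField F) (_ : Algebra k F) (w : Fin n → F),
        (∀ l, w l ^ 2 = algebraMap k F (yc (P l))) ∧
        IntermediateField.adjoin k (Set.range w) = ⊤ ∧ finrank k F ≤ 2 ^ n ∧
        4 * lD k F ≤ sht (a • (2 : ℕ) • T) + sht (b • (2 : ℕ) • T) - sht ((2 : ℕ) • T) + C := by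
  classical
  obtain ⟨B0, hB0⟩ := bad_fin A B hD
  obtain ⟨C1, hC1⟩ := glob A B a b B0 (fun v hv => ⟨(hB0 v hv).1, (hB0 v hv).2.1⟩)
  have hk : (0 : ℝ) < finrank ℚ k := by exact_mod_cast finrank_pos
  set lN : HeightOneSpectrum (𝓞 k) → ℝ := fun v => Real.log (Ideal.absNorm v.asIdeal : ℝ) with hlN
  have hlN0 : ∀ v, 0 ≤ lN v := fun v => Real.log_natCast_nonneg _
  set P2 : Finset (HeightOneSpectrum (𝓞 k)) := B0.image FinitePlace.maximalIdeal with hP2
  set SR : Finset (FinitePlace k) :=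
    (Set.Finite.biUnion (Set.toFinite (Set.univ : Set (Fin n)))
      (fun l _ => big_fin ((2 : ℕ) • R l))).toFinset with hSR
  have hSRm : ∀ v, v ∈ SR ↔ ∃ l, 1 < xm v.val ((2 : ℕ) • R l) := by
    intro v
    rw [hSR, Set.Finite.mem_toFinset]
    simp
  refine ⟨C1 + 2 * ∑ v ∈ B0, lN v.maximalIdeal + 2 * ∑ v ∈ SR, lN v.maximalIdeal +
    4 * (finrank ℚ k * (n * ((1 / 2 * ∑ v ∈ P2, lN v) / finrank ℚ k + Real.log 2))), ?_⟩
  intro T P hT hP h2P hPi hPj hPR
  set ST : Finset (FinitePlace k) :=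
    ((big_fin (a • (2 : ℕ) • T)).union (big_fin (b • (2 : ℕ) • T))).toFinset.filter
      (fun v => v ∉ B0) with hST
  have hSTm : ∀ v, v ∈ ST ↔ (1 < xm v.val (a • (2 : ℕ) • T) ∨ 1 < xm v.val (b • (2 : ℕ) • T)) ∧
      v ∉ B0 := by
    intro v
    rw [hST, Finset.mem_filter, Set.Finite.mem_toFinset]
    rfl
  set V : Finset (HeightOneSpectrum (𝓞 k)) :=
    (B0 ∪ ST ∪ SR).image FinitePlace.maximalIdeal with hV
  have hy0 : ∀ l, yc (P l) ≠ 0 := fun l => y_ne (hP l) (h2P l)
  obtain ⟨F, iF, iN, iA, w, hw, htop⟩ := exists_field k (fun l => yc (P l))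
  have hevV : ∀ v, v ∉ V → ∀ l, Ev v (yc (P l)) := by
    intro v hv l
    have hv' : FinitePlace.mk v ∉ B0 ∪ ST ∪ SR := by
      intro h
      apply hv
      rw [hV, Finset.mem_image]
      exact ⟨_, h, FinitePlace.maximalIdeal_mk v⟩
    rw [Finset.mem_union, Finset.mem_union, not_or, not_or] at hv'
    obtain ⟨⟨hvB, hvT⟩, hvR⟩ := hv'
    obtain ⟨gA, gB, g2, gD⟩ := hB0 _ hvB
    have hsmall : xm (FinitePlace.mk v).val ((2 : ℕ) • P l) ≤ 1 := by
      by_contra hc
      rw [not_le] at hc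
      by_cases hi : l = i
      · apply hvT
        rw [hSTm]
        refine ⟨Or.inl ?_, hvB⟩
        rw [hi, hPi, smul_comm] at hc
        exact hc
      · by_cases hj : l = j
        · apply hvT
          rw [hSTm]
          refine ⟨Or.inr ?_, hvB⟩
          rw [hj, hPj, smul_comm] at hc
          exact hc
        · apply hvR
          rw [hSRm]
          refine ⟨l, ?_⟩
          rw [← hPR l hi hj]
          exact hc
    obtain ⟨x, y, h, hPl⟩ := exists_some (hP l)
    obtain ⟨X, Y, H, hX⟩ := exists_some (h2P l)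
    have hna : ∀ x y, (FinitePlace.mk v).val (x + y) ≤
        max ((FinitePlace.mk v).val x) ((FinitePlace.mk v).val y) :=
      FinitePlace.add_le (FinitePlace.mk v)
    rw [hX, xm_some] at hsmall
    have hX1 := (le_max_left _ _).trans hsmall
    rw [hPl] at hX
    have h3 := unit_of_double hna gA gB gD hX hX1
    apply ev_of_abs
    rw [hPl]
    exact h3.2
  obtain ⟨hfin, V', hV', hld⟩ := ld_multi k P2 (by
    intro v hv
    rw [hP2, Finset.mem_image]
    refine ⟨FinitePlace.mk v, ?_, FinitePlace.maximalIdeal_mk v⟩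
    by_contra hc
    exact two_mem hv (hB0 _ hc).2.2.1) V n F (fun l => yc (P l)) w hy0 hw htop hevV
  refine ⟨F, iF, iN, iA, w, hw, htop, hfin, ?_⟩
  have hsub : V' ⊆ V := by
    intro v hv
    obtain ⟨l, hl⟩ := (hV' v).1 hv
    by_contra hc
    exact hl (hevV v hc l)
  have s1 : ∑ v ∈ V', lN v ≤ ∑ v ∈ V, lN v :=
    Finset.sum_le_sum_of_subset_of_nonneg hsub fun v _ _ => hlN0 v
  have hinj : ∀ S : Finset (FinitePlace k), ∑ v ∈ S.image FinitePlace.maximalIdeal, lN v =
      ∑ v ∈ S, lN v.maximalIdeal := by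
    intro S
    rw [Finset.sum_image]
    intro u _ w _ h
    exact (FinitePlace.maximalIdeal_inj _ _).1 h
  have sun : ∀ S S' : Finset (FinitePlace k), ∑ v ∈ S ∪ S', lN v.maximalIdeal ≤
      ∑ v ∈ S, lN v.maximalIdeal + ∑ v ∈ S', lN v.maximalIdeal := by
    intro S S'
    rw [← Finset.sum_union_inter]
    have : 0 ≤ ∑ v ∈ S ∩ S', lN v.maximalIdeal := Finset.sum_nonneg fun v _ => hlN0 _
    linarith
  have s2 : ∑ v ∈ V, lN v ≤ ∑ v ∈ B0, lN v.maximalIdeal + ∑ v ∈ ST, lN v.maximalIdeal +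
      ∑ v ∈ SR, lN v.maximalIdeal := by
    rw [hV, hinj]
    refine (sun _ _).trans ?_
    have := sun B0 ST
    linarith
  have hne : ∀ (c : ℕ) (l : Fin n), P l = c • T → c • (2 : ℕ) • T ≠ 0 := by
    intro c l h
    rw [smul_comm, ← h]
    exact h2P l
  have s3 := hC1 ((2 : ℕ) • T) hT (hne a i hPi) (hne b j hPj) ST (fun v hv => by
    have := (hSTm v).1 hv
    exact ⟨this.2, this.1⟩)
  have s4 : 2 * ∑ v ∈ ST, lN v.maximalIdeal ≤ sht (a • (2 : ℕ) • T) + sht (b • (2 : ℕ) • T) -
      sht ((2 : ℕ) • T) + C1 := by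
    have : ∑ v ∈ ST, Real.log (Ideal.absNorm v.maximalIdeal.asIdeal : ℝ) =
      ∑ v ∈ ST, lN v.maximalIdeal := rfl
    rw [this] at s3
    linarith
  rw [lD_eq F]
  have s5 : Y733.VR.ld F - Y733.VR.ld k ≤ (1 / 2 * ∑ v ∈ V', lN v) / finrank ℚ k +
        n * ((1 / 2 * ∑ v ∈ P2, lN v) / finrank ℚ k + Real.log 2) := by
    linarith
  have s6 : finrank ℚ k * (Y733.VR.ld F - Y733.VR.ld k) ≤ 1 / 2 * ∑ v ∈ V', lN v +
      finrank ℚ k * (n * ((1 / 2 * ∑ v ∈ P2, lN v) / finrank ℚ k + Real.log 2)) := by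
    calc finrank ℚ k * (Y733.VR.ld F - Y733.VR.ld k)
        ≤ finrank ℚ k * ((1 / 2 * ∑ v ∈ V', lN v) / finrank ℚ k +
          n * ((1 / 2 * ∑ v ∈ P2, lN v) / finrank ℚ k + Real.log 2)) :=
          mul_le_mul_of_nonneg_left s5 hk.le
      _ = _ := by
          rw [mul_add, mul_div_cancel₀ _ hk.ne']
  linarith

end fin

end Pool.Agent.NH29.VE
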