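import Mathlib
import Pool.Agent.NH29.VE.Pts
import Pool.Agent.Helper259.HtExt

set_option autoImplicit false
set_option linter.unusedSectionVars false

/-!
The discriminant of the field generated by the square root of a value of a polynomial.
-/

namespace Pool.Agent.NH29.VE

open NumberField WeierstrassCurve IsDedekindDomain Height Function Module
open Pool.Agent.TH942 Pool.Agent.TH954

/-- the polynomial has degree at most two in the first two variables together, and in each of the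
other ones -/
def Deg2 {k : Type} [Field k] {m : ℕ} (Ψ : MvPolynomial (Fin (m + 2)) k) : Prop :=
  ∀ d ∈ Ψ.support, d 0 + d 1 ≤ 2 ∧ ∀ i : Fin m, d i.succ.succ ≤ 2

section loc

variable {k : Type} [Field k]

/-- the local height of `(1 : x : y)` -/
noncomputable def m3 (v : AbsoluteValue k ℝ) (x y : k) : ℝ := ⨆ j, v (![1, x, y] j)

lemma m3_le_iff (v : AbsoluteValue k ℝ) (x y : k) {M : ℝ} (h1 : 1 ≤ M) (h2 : v x ≤ M)
    (h3 : v y ≤ M) : m3 v x y ≤ M := by
  refine ciSup_le fun j => ?_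
  fin_cases j
  · show v 1 ≤ M
    rw [v.map_one]; exact h1
  · exact h2
  · exact h3

lemma le_m3 (v : AbsoluteValue k ℝ) (x y : k) (j : Fin 3) : v (![1, x, y] j) ≤ m3 v x y :=
  le_ciSup (f := fun j => v (![1, x, y] j)) (Set.finite_range _).bddAbove j

lemma one_le_m3 (v : AbsoluteValue k ℝ) (x y : k) : 1 ≤ m3 v x y := by
  have := le_m3 v x y 0
  have e : v (![1, x, y] 0) = 1 := v.map_one
  rwa [e] at this

lemma left_le_m3 (v : AbsoluteValue k ℝ) (x y : k) : v x ≤ m3 v x y := le_m3 v x y 1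
lemma right_le_m3 (v : AbsoluteValue k ℝ) (x y : k) : v y ≤ m3 v x y := le_m3 v x y 2

lemma m3_att (v : AbsoluteValue k ℝ) (x y : k) : ∃ t : k, t ≠ 0 ∧ v t = m3 v x y := by
  obtain ⟨j, hj⟩ := exists_eq_ciSup_of_finite (f := fun j => v (![1, x, y] j))
  refine ⟨![1, x, y] j, ?_, hj⟩
  intro h0
  have h1 := one_le_m3 v x y
  have h2 : m3 v x y = 0 := by
    unfold m3
    rw [← hj]
    show v (![1, x, y] j) = 0
    rw [h0, v.map_zero]
  rw [h2] at h1
  norm_num at h1

lemma max_att (v : AbsoluteValue k ℝ) (x : k) : ∃ t : k, t ≠ 0 ∧ v t = max (v x) 1 := by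
  rcases le_or_gt (v x) 1 with h | h
  · exact ⟨1, one_ne_zero, by rw [v.map_one, max_eq_right h]⟩
  · refine ⟨x, ?_, by rw [max_eq_left h.le]⟩
    rintro rfl
    rw [v.map_zero] at h
    norm_num at h

/-- the local bound -/
noncomputable def Yl {m : ℕ} (v : AbsoluteValue k ℝ) (x : Fin (m + 2) → k) : ℝ :=
  m3 v (x 0) (x 1) * ∏ i : Fin m, max (v (x i.succ.succ)) 1

lemma Yl_att {m : ℕ} (v : AbsoluteValue k ℝ) (x : Fin (m + 2) → k) :
    ∃ t : k, t ≠ 0 ∧ v t = Yl v x := by
  obtain ⟨t, ht, h1⟩ := m3_att v (x 0) (x 1)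
  choose s hs h2 using fun i : Fin m => max_att v (x i.succ.succ)
  refine ⟨t * ∏ i, s i, mul_ne_zero ht (Finset.prod_ne_zero_iff.2 fun i _ => hs i), ?_⟩
  unfold Yl
  rw [v.map_mul, h1, map_prod]
  congr 1
  exact Finset.prod_congr rfl fun i _ => h2 i

lemma one_le_Yl {m : ℕ} (v : AbsoluteValue k ℝ) (x : Fin (m + 2) → k) : 1 ≤ Yl v x := by
  unfold Yl
  have h1 := one_le_m3 v (x 0) (x 1)
  have h2 : 1 ≤ ∏ i : Fin m, max (v (x i.succ.succ)) 1 := by
    have h3 : ∏ _i : Fin m, (1 : ℝ) ≤ ∏ i : Fin m, max (v (x i.succ.succ)) 1 :=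
      Finset.prod_le_prod (fun _ _ => zero_le_one) fun i _ => le_max_right _ _
    rwa [Finset.prod_const_one] at h3
  nlinarith

lemma mono_le {m : ℕ} (v : AbsoluteValue k ℝ) (x : Fin (m + 2) → k) (d : Fin (m + 2) →₀ ℕ)
    (h01 : d 0 + d 1 ≤ 2) (hd : ∀ i : Fin m, d i.succ.succ ≤ 2) :
    v (∏ i, x i ^ d i) ≤ Yl v x ^ 2 := by
  rw [map_prod, Fin.prod_univ_succ, Fin.prod_univ_succ]
  unfold Yl
  rw [mul_pow, ← Finset.prod_pow, ← mul_assoc]
  have h1 := one_le_m3 v (x 0) (x 1)
  refine mul_le_mul ?_ ?_ (Finset.prod_nonneg fun i _ => v.nonneg _) (by positivity)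
  · rw [v.map_pow, v.map_pow]
    calc v (x 0) ^ d 0 * v (x (Fin.succ 0)) ^ d (Fin.succ 0)
        ≤ m3 v (x 0) (x 1) ^ d 0 * m3 v (x 0) (x 1) ^ d 1 := by
          refine mul_le_mul (pow_le_pow_left₀ (v.nonneg _) (left_le_m3 v _ _) _)
            (pow_le_pow_left₀ (v.nonneg _) (right_le_m3 v _ _) _)
            (pow_nonneg (v.nonneg _) _) (by positivity)
      _ = m3 v (x 0) (x 1) ^ (d 0 + d 1) := (pow_add _ _ _).symm
      _ ≤ m3 v (x 0) (x 1) ^ 2 := pow_le_pow_right₀ h1 h01
  · refine Finset.prod_le_prod (fun i _ => v.nonneg _) fun i _ => ?_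
    rw [v.map_pow]
    calc v (x i.succ.succ) ^ d i.succ.succ
        ≤ max (v (x i.succ.succ)) 1 ^ d i.succ.succ :=
          pow_le_pow_left₀ (v.nonneg _) (le_max_left _ _) _
      _ ≤ _ := pow_le_pow_right₀ (le_max_right _ _) (hd i)

lemma eval_le_arch {m : ℕ} (v : AbsoluteValue k ℝ) (Ψ : MvPolynomial (Fin (m + 2)) k)
    (hΨ : Deg2 Ψ) (x : Fin (m + 2) → k) :
    v (MvPolynomial.eval x Ψ) ≤ (∑ d ∈ Ψ.support, v (Ψ.coeff d) + 1) * Yl v x ^ 2 := by
  rw [MvPolynomial.eval_eq']
  have hY := one_le_Yl v x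
  calc v (∑ d ∈ Ψ.support, Ψ.coeff d * ∏ i, x i ^ d i)
      ≤ ∑ d ∈ Ψ.support, v (Ψ.coeff d * ∏ i, x i ^ d i) := v.sum_le _ _
    _ ≤ ∑ d ∈ Ψ.support, v (Ψ.coeff d) * Yl v x ^ 2 := by
        refine Finset.sum_le_sum fun d hd => ?_
        rw [v.map_mul]
        exact mul_le_mul_of_nonneg_left (mono_le v x d (hΨ d hd).1 (hΨ d hd).2) (v.nonneg _)
    _ = (∑ d ∈ Ψ.support, v (Ψ.coeff d)) * Yl v x ^ 2 := by rw [Finset.sum_mul]
    _ ≤ _ := by
        refine mul_le_mul_of_nonneg_right ?_ (by positivity)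
        linarith

lemma eval_le_na {m : ℕ} (v : AbsoluteValue k ℝ) (hna : ∀ x y, v (x + y) ≤ max (v x) (v y))
    (Ψ : MvPolynomial (Fin (m + 2)) k)
    (hΨ : Deg2 Ψ) (hc : ∀ d ∈ Ψ.support, v (Ψ.coeff d) ≤ 1) (x : Fin (m + 2) → k) :
    v (MvPolynomial.eval x Ψ) ≤ Yl v x ^ 2 := by
  rw [MvPolynomial.eval_eq']
  have hY := one_le_Yl v x
  have h : ∀ s : Finset (Fin (m + 2) →₀ ℕ), s ⊆ Ψ.support →
      v (∑ d ∈ s, Ψ.coeff d * ∏ i, x i ^ d i) ≤ Yl v x ^ 2 := by
    classical
    intro s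
    induction s using Finset.induction_on with
    | empty => intro _; rw [Finset.sum_empty, v.map_zero]; positivity
    | insert d s hd ih =>
      intro hs
      rw [Finset.sum_insert hd]
      have hdm := hs (Finset.mem_insert_self d s)
      refine na_add hna ?_ (ih fun e he => hs (Finset.mem_insert_of_mem he))
      exact na_mul (hc d hdm) (mono_le v x d (hΨ d hdm).1 (hΨ d hdm).2)
  exact h _ (Finset.Subset.refl _)

end loc

section fin

variable {k : Type} [Field k] [NumberField k]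

lemma ev_of_eq_sq (v : FinitePlace k) {u t : k} (ht : t ≠ 0) (h : v u = v t ^ 2) :
    Ev v.maximalIdeal u := by
  refine ⟨t, ht, ?_⟩
  rw [H951R2.MS.fp_val, H951R2.MS.fp_val, ← NNReal.coe_pow, NNReal.coe_inj, ← map_pow] at h
  exact (WithZeroMulInt.toNNReal_strictMono
    (NumberField.HeightOneSpectrum.one_lt_absNorm_nnreal v.maximalIdeal)).injective h

lemma Yl_fin {m : ℕ} (x : Fin (m + 2) → k) :
    (fun v : FinitePlace k => Yl v.val x).HasFiniteMulSupport := by
  have h1 : (fun v : FinitePlace k => m3 v.val (x 0) (x 1)).HasFiniteMulSupport := by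
    have : (![1, x 0, x 1] : Fin 3 → k) ≠ 0 := by
      intro h
      have := congrFun h 0
      simp at this
    exact sup_fin this
  have h2 : (fun v : FinitePlace k => ∏ i : Fin m, max (v.val (x i.succ.succ)) 1).HasFiniteMulSupport :=
    HasFiniteMulSupport.prod (fun i : Fin m => max_fin (x i.succ.succ)) Finset.univ
  exact h1.mul h2

lemma ht_Yl {m : ℕ} (x : Fin (m + 2) → k) :
    Real.log ((∏ w : InfinitePlace k, Yl w.val x ^ w.mult) * ∏ᶠ v : FinitePlace k, Yl v.val x) =
      logHeight ![1, x 0, x 1] + ∑ i : Fin m, logHeight₁ (x i.succ.succ) := by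
  have hne : (![1, x 0, x 1] : Fin 3 → k) ≠ 0 := by
    intro h
    have := congrFun h 0
    simp at this
  have h1 : (fun v : FinitePlace k => m3 v.val (x 0) (x 1)).HasFiniteMulSupport := sup_fin hne
  have h2 : ∀ i : Fin m, (fun v : FinitePlace k => max (v.val (x i.succ.succ)) 1).HasFiniteMulSupport :=
    fun i => max_fin (x i.succ.succ)
  have h3 : (fun v : FinitePlace k => ∏ i : Fin m, max (v.val (x i.succ.succ)) 1).HasFiniteMulSupport :=
    HasFiniteMulSupport.prod h2 Finset.univ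
  have e0 : mulHeight ![1, x 0, x 1] = (∏ w : InfinitePlace k, m3 w.val (x 0) (x 1) ^ w.mult) *
      ∏ᶠ v : FinitePlace k, m3 v.val (x 0) (x 1) := NumberField.mulHeight_eq hne
  have e1 : ∀ i : Fin m, mulHeight₁ (x i.succ.succ) =
      (∏ w : InfinitePlace k, max (w.val (x i.succ.succ)) 1 ^ w.mult) *
      ∏ᶠ v : FinitePlace k, max (v.val (x i.succ.succ)) 1 := fun i =>
    NumberField.mulHeight₁_eq (x i.succ.succ)
  have e2 : (∏ w : InfinitePlace k, Yl w.val x ^ w.mult) * ∏ᶠ v : FinitePlace k, Yl v.val x =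
      mulHeight ![1, x 0, x 1] * ∏ i : Fin m, mulHeight₁ (x i.succ.succ) := by
    unfold Yl
    rw [finprod_mul_distrib h1 h3, finprod_prod_comm _ _ (fun i _ => h2 i)]
    simp_rw [mul_pow]
    rw [Finset.prod_mul_distrib, e0]
    simp_rw [e1]
    rw [Finset.prod_mul_distrib]
    have : ∏ w : InfinitePlace k, (∏ i : Fin m, max (w.val (x i.succ.succ)) 1) ^ w.mult =
        ∏ i : Fin m, ∏ w : InfinitePlace k, max (w.val (x i.succ.succ)) 1 ^ w.mult := by
      rw [Finset.prod_comm]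
      refine Finset.prod_congr rfl fun w _ => ?_
      rw [Finset.prod_pow]
    rw [this]
    ring
  rw [e2, Real.log_mul (mulHeight_ne_zero _)
    (Finset.prod_ne_zero_iff.2 fun i _ => mulHeight₁_ne_zero _),
    Real.log_prod (fun i _ => mulHeight₁_ne_zero _)]
  rfl

/-- the primes at which a value of a polynomial has an odd valuation -/
theorem odd_bound {m : ℕ} (Ψ : MvPolynomial (Fin (m + 2)) k) (hΨ : Deg2 Ψ) :
    ∃ (C : ℝ) (B1 : Finset (FinitePlace k)), ∀ x : Fin (m + 2) → k,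
      MvPolynomial.eval x Ψ ≠ 0 → ∀ V : Finset (FinitePlace k),
      (∀ v ∈ V, v ∉ B1 ∧ ¬ Ev v.maximalIdeal (MvPolynomial.eval x Ψ)) →
      ∑ v ∈ V, Real.log (Ideal.absNorm v.maximalIdeal.asIdeal : ℝ) ≤
        2 * (logHeight ![1, x 0, x 1] + ∑ i : Fin m, logHeight₁ (x i.succ.succ)) + C := by
  classical
  set cA : AbsoluteValue k ℝ → ℝ := fun v => ∑ d ∈ Ψ.support, v (Ψ.coeff d) + 1 with hcA
  have hcA1 : ∀ v, 1 ≤ cA v := by
    intro v
    have : 0 ≤ ∑ d ∈ Ψ.support, v (Ψ.coeff d) := Finset.sum_nonneg fun d _ => v.nonneg _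
    simp only [hcA]
    linarith
  have hBfin : {v : FinitePlace k | ∃ d ∈ Ψ.support, v (Ψ.coeff d) ≠ 1}.Finite := by
    have : {v : FinitePlace k | ∃ d ∈ Ψ.support, v (Ψ.coeff d) ≠ 1} ⊆
        ⋃ d ∈ Ψ.support, {v : FinitePlace k | v (Ψ.coeff d) ≠ 1} := by
      rintro v ⟨d, hd, hv⟩
      simp only [Set.mem_iUnion]
      exact ⟨d, hd, hv⟩
    refine Set.Finite.subset (Set.Finite.biUnion Ψ.support.finite_toSet fun d hd => ?_) this
    exact FinitePlace.hasFiniteMulSupport (MvPolynomial.mem_support_iff.1 hd)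
  set B1 : Finset (FinitePlace k) := hBfin.toFinset with hB1
  have hB1m : ∀ v : FinitePlace k, v ∉ B1 → ∀ d ∈ Ψ.support, v (Ψ.coeff d) ≤ 1 := by
    intro v hv d hd
    rw [hB1, Set.Finite.mem_toFinset] at hv
    by_contra hc
    exact hv ⟨d, hd, fun h => hc h.le⟩
  set Cf : FinitePlace k → ℝ := fun v => if v ∈ B1 then cA v.val else 1 with hCf
  have hCfs : Cf.HasFiniteMulSupport := by
    refine Set.Finite.subset B1.finite_toSet ?_
    intro v hv
    by_contra hc
    apply hv
    have : v ∉ B1 := hc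
    rw [hCf]
    simp only [this, if_false]
  have hCf1 : ∀ v, 1 ≤ Cf v := by
    intro v
    simp only [hCf]
    split_ifs
    · exact hcA1 _
    · exact le_rfl
  set Ci : ℝ := ∏ w : InfinitePlace k, cA w.val ^ w.mult with hCi
  have hCi0 : 0 < Ci := Finset.prod_pos fun w _ => pow_pos (by
    have := hcA1 w.val; linarith) _
  have hCf0 : 0 < ∏ᶠ v, Cf v := finprod_induction (fun x : ℝ => 0 < x) one_pos
    (fun _ _ h1 h2 => mul_pos h1 h2) (fun v => zero_lt_one.trans_le (hCf1 v))
  refine ⟨Real.log (Ci * ∏ᶠ v, Cf v), B1, ?_⟩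
  intro x hx V hV
  set u : k := MvPolynomial.eval x Ψ with hu
  set N : FinitePlace k → ℝ := fun v => (Ideal.absNorm v.maximalIdeal.asIdeal : ℝ) with hN
  have hN1 : ∀ v, 1 < N v := fun v => by
    have := H951R2.MS.fp_one_lt v
    simp only [hN]
    exact_mod_cast this
  set g : FinitePlace k → ℝ := fun v => if v ∈ V then N v else 1 with hg
  have hg1 : ∀ v, 1 ≤ g v := by
    intro v
    simp only [hg]
    split_ifs
    · exact (hN1 v).le
    · exact le_rfl
  have hgsub : mulSupport g ⊆ V := by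
    intro v hv
    by_contra hc
    apply hv
    have : v ∉ V := hc
    rw [hg]
    simp only [this, if_false]
  have hgs : g.HasFiniteMulSupport := Set.Finite.subset V.finite_toSet hgsub
  have hgprod : ∏ᶠ v, g v = ∏ v ∈ V, N v := by
    rw [finprod_eq_prod_of_mulSupport_subset (s := V) g hgsub]
    refine Finset.prod_congr rfl fun v hv => ?_
    simp only [hg, hv, if_true]
  have hus : (fun v : FinitePlace k => v.val u).HasFiniteMulSupport :=
    FinitePlace.hasFiniteMulSupport hx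
  have hYs := Yl_fin x
  have hY2s : (fun v : FinitePlace k => Yl v.val x ^ 2).HasFiniteMulSupport := hYs.pow 2
  have hloc : ∀ v : FinitePlace k, v.val u * g v ≤ Cf v * Yl v.val x ^ 2 := by
    intro v
    have hna : ∀ x y, v.val (x + y) ≤ max (v.val x) (v.val y) := FinitePlace.add_le v
    by_cases hvB : v ∈ B1
    · have hvV : v ∉ V := fun h => (hV v h).1 hvB
      simp only [hg, hvV, if_false, hCf, hvB, if_true, mul_one]
      exact eval_le_arch v.val Ψ hΨ x
    · simp only [hCf, hvB, if_false, one_mul]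
      have h1 := eval_le_na v.val hna Ψ hΨ (hB1m v hvB) x
      by_cases hvV : v ∈ V
      · simp only [hg, hvV, if_true]
        obtain ⟨t, ht, h2⟩ := Yl_att v.val x
        have hne : v.val u ≠ Yl v.val x ^ 2 := by
          intro h3
          apply (hV v hvV).2
          apply ev_of_eq_sq v ht
          show v.val u = v.val t ^ 2
          rw [h3, h2]
        have hlt := lt_of_le_of_ne h1 hne
        have ht0 : 0 < v.val t := by rw [h2]; have := one_le_Yl v.val x; linarith
        have h4 : v (u / t ^ 2) < 1 := by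
          show v.val (u / t ^ 2) < 1
          rw [map_div₀, v.val.map_pow, div_lt_one (by positivity), h2]
          exact hlt
        have h5 := H951R2.MS.fp_le_inv v h4
        have h6 : v.val (u / t ^ 2) ≤ (N v)⁻¹ := h5
        rw [map_div₀, v.val.map_pow, h2, div_le_iff₀ (by rw [← h2]; positivity)] at h6
        have hNp : 0 < N v := by linarith [hN1 v]
        calc v.val u * N v ≤ (N v)⁻¹ * Yl v.val x ^ 2 * N v :=
              mul_le_mul_of_nonneg_right h6 hNp.le
          _ = Yl v.val x ^ 2 := by field_simp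
      · simp only [hg, hvV, if_false, mul_one]
        exact h1
  have hfin : (∏ᶠ v : FinitePlace k, v.val u) * ∏ v ∈ V, N v ≤
      (∏ᶠ v, Cf v) * (∏ᶠ v : FinitePlace k, Yl v.val x) ^ 2 := by
    have e1 := finprod_mul_distrib hus hgs
    have e2 := finprod_mul_distrib hCfs hY2s
    have e3 := finprod_pow hYs 2
    rw [← hgprod, ← e1, e3, ← e2]
    refine finprod_le_finprod (hus.mul hgs) (fun v => ?_) (hCfs.mul hY2s) hloc
    exact mul_nonneg (v.val.nonneg _) (by linarith [hg1 v])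
  have hinf : ∏ w : InfinitePlace k, w.val u ^ w.mult ≤
      Ci * (∏ w : InfinitePlace k, Yl w.val x ^ w.mult) ^ 2 := by
    rw [hCi, ← Finset.prod_pow, ← Finset.prod_mul_distrib]
    refine Finset.prod_le_prod (fun w _ => pow_nonneg (w.val.nonneg _) _) fun w _ => ?_
    calc w.val u ^ w.mult ≤ (cA w.val * Yl w.val x ^ 2) ^ w.mult :=
          pow_le_pow_left₀ (w.val.nonneg _) (eval_le_arch w.val Ψ hΨ x) _
      _ = _ := by rw [mul_pow, ← pow_mul, ← pow_mul, mul_comm 2]
  have hpf : (∏ w : InfinitePlace k, w.val u ^ w.mult) * ∏ᶠ v : FinitePlace k, v.val u = 1 :=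
    prod_abs_eq_one hx
  have hup : 0 < ∏ w : InfinitePlace k, w.val u ^ w.mult :=
    Finset.prod_pos fun w _ => pow_pos (w.val.pos hx) _
  have hNp : 0 < ∏ v ∈ V, N v := Finset.prod_pos fun v _ => by linarith [hN1 v]
  have hYf : 0 < ∏ᶠ v : FinitePlace k, Yl v.val x :=
    finprod_induction (fun x : ℝ => 0 < x) one_pos (fun _ _ h1 h2 => mul_pos h1 h2)
      (fun v => zero_lt_one.trans_le (one_le_Yl v.val x))
  have hYi : 0 < ∏ w : InfinitePlace k, Yl w.val x ^ w.mult :=
    Finset.prod_pos fun w _ => pow_pos (zero_lt_one.trans_le (one_le_Yl w.val x)) _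
  have hmain : ∏ v ∈ V, N v ≤ (Ci * ∏ᶠ v, Cf v) *
      ((∏ w : InfinitePlace k, Yl w.val x ^ w.mult) * ∏ᶠ v : FinitePlace k, Yl v.val x) ^ 2 := by
    calc ∏ v ∈ V, N v = (∏ w : InfinitePlace k, w.val u ^ w.mult) *
          ((∏ᶠ v : FinitePlace k, v.val u) * ∏ v ∈ V, N v) := by
          rw [← mul_assoc, hpf, one_mul]
      _ ≤ (Ci * (∏ w : InfinitePlace k, Yl w.val x ^ w.mult) ^ 2) *
          ((∏ᶠ v, Cf v) * (∏ᶠ v : FinitePlace k, Yl v.val x) ^ 2) := by
          refine mul_le_mul hinf hfin ?_ (by positivity)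
          refine mul_nonneg ?_ hNp.le
          exact finprod_nonneg fun v => v.val.nonneg _
      _ = _ := by ring
  have hlog := Real.log_le_log hNp hmain
  rw [Real.log_prod (fun v _ => by linarith [hN1 v]), Real.log_mul (mul_pos hCi0 hCf0).ne'
    (by positivity), Real.log_pow, ht_Yl] at hlog
  push_cast at hlog
  linarith

/-- **the field of the square root of a value of a polynomial** -/
theorem disc_value {m : ℕ} (Ψ : MvPolynomial (Fin (m + 2)) k) (hΨ : Deg2 Ψ) :
    ∃ C : ℝ, ∀ x : Fin (m + 2) → k,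
      ∃ (F : Type) (_ : Field F) (_ : NumberField F) (_ : Algebra k F) (w : F),
        w ^ 2 = algebraMap k F (MvPolynomial.eval x Ψ) ∧
        IntermediateField.adjoin k {w} = ⊤ ∧ finrank k F ≤ 2 ∧
        lD k F ≤ logHeight ![1, x 0, x 1] + ∑ i : Fin m, logHeight₁ (x i.succ.succ) + C := by
  classical
  obtain ⟨C1, B1, h1⟩ := odd_bound Ψ hΨ
  have hk : (0 : ℝ) < finrank ℚ k := by exact_mod_cast finrank_pos
  have h2fin : {v : FinitePlace k | v (2 : k) ≠ 1}.Finite :=
    FinitePlace.hasFiniteMulSupport two_ne_zero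
  set P2 : Finset (HeightOneSpectrum (𝓞 k)) := h2fin.toFinset.image FinitePlace.maximalIdeal
    with hP2
  set lN : HeightOneSpectrum (𝓞 k) → ℝ := fun v => Real.log (Ideal.absNorm v.asIdeal : ℝ) with hlN
  have hlN0 : ∀ v, 0 ≤ lN v := fun v => Real.log_natCast_nonneg _
  have hlog2 : 0 ≤ Real.log 2 := Real.log_nonneg (by norm_num)
  set D : ℝ := finrank ℚ k * ((1 / 2 * ∑ v ∈ P2, lN v) / finrank ℚ k + Real.log 2) with hD
  have hD0 : 0 ≤ D := by
    have : 0 ≤ ∑ v ∈ P2, lN v := Finset.sum_nonneg fun v _ => hlN0 v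
    positivity
  have hS0 : 0 ≤ ∑ v ∈ B1, lN v.maximalIdeal := Finset.sum_nonneg fun v _ => hlN0 _
  refine ⟨|C1| + ∑ v ∈ B1, lN v.maximalIdeal + D, fun x => ?_⟩
  have hh0 : 0 ≤ logHeight ![1, x 0, x 1] + ∑ i : Fin m, logHeight₁ (x i.succ.succ) :=
    add_nonneg (logHeight_nonneg _) (Finset.sum_nonneg fun i _ => zero_le_logHeight₁ _)
  by_cases hu : MvPolynomial.eval x Ψ = 0
  · refine ⟨k, inferInstance, inferInstance, inferInstance, 0, ?_, ?_, ?_, ?_⟩
    · rw [hu, map_zero, zero_pow two_ne_zero]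
    · rw [eq_top_iff]
      intro z _
      exact IntermediateField.algebraMap_mem _ z
    · rw [finrank_self]; norm_num
    · have : lD k k = 0 := by
        unfold lD
        rw [finrank_self]
        simp
      rw [this]
      have := abs_nonneg C1
      linarith
  · obtain ⟨F, iF, iN, iA, w, hw, htop⟩ := exists_field k (fun _ : Fin 1 => MvPolynomial.eval x Ψ)
    have hufin : {v : FinitePlace k | v (MvPolynomial.eval x Ψ) ≠ 1}.Finite :=
      FinitePlace.hasFiniteMulSupport hu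
    set V : Finset (HeightOneSpectrum (𝓞 k)) := hufin.toFinset.image FinitePlace.maximalIdeal
      with hV
    have hevV : ∀ v, v ∉ V → ∀ _ : Fin 1, Ev v (MvPolynomial.eval x Ψ) := by
      intro v hv _
      apply ev_of_abs
      by_contra hc
      apply hv
      rw [hV, Finset.mem_image]
      exact ⟨FinitePlace.mk v, (Set.Finite.mem_toFinset _).2 hc, FinitePlace.maximalIdeal_mk v⟩
    obtain ⟨hfr, V', hV', hld⟩ := ld_multi k P2 (by
      intro v hv
      rw [hP2, Finset.mem_image]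
      exact ⟨FinitePlace.mk v, (Set.Finite.mem_toFinset _).2 (two_mem hv),
        FinitePlace.maximalIdeal_mk v⟩) V 1 F (fun _ => MvPolynomial.eval x Ψ) w (fun _ => hu) hw
      htop hevV
    have hrange : Set.range w = {w 0} := by
      ext z
      constructor
      · rintro ⟨i, rfl⟩
        rw [Subsingleton.elim i 0]
        exact Set.mem_singleton _
      · rintro rfl
        exact ⟨0, rfl⟩
    rw [hrange] at htop
    refine ⟨F, iF, iN, iA, w 0, hw 0, htop, by simpa using hfr, ?_⟩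
    -- the sum over the odd primes
    have hinj : Function.Injective (FinitePlace.mk (K := k)) := by
      intro v v' h
      exact FinitePlace.mk_eq_iff.1 h
    set W : Finset (FinitePlace k) := V'.map ⟨FinitePlace.mk, hinj⟩ with hW
    have hWm : ∀ v : FinitePlace k, v ∈ W → v.maximalIdeal ∈ V' := by
      intro v hv
      obtain ⟨v', hv', rfl⟩ := Finset.mem_map.1 hv
      show (FinitePlace.mk v').maximalIdeal ∈ V'
      rw [FinitePlace.maximalIdeal_mk]
      exact hv'
    have hWs : ∑ v ∈ V', lN v = ∑ v ∈ W, lN v.maximalIdeal := by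
      rw [hW, Finset.sum_map]
      refine Finset.sum_congr rfl fun v _ => ?_
      show lN v = lN (FinitePlace.mk v).maximalIdeal
      rw [FinitePlace.maximalIdeal_mk]
    have h3 := h1 x hu (W.filter (fun v => v ∉ B1)) (by
      intro v hv
      rw [Finset.mem_filter] at hv
      refine ⟨hv.2, ?_⟩
      obtain ⟨_, h⟩ := (hV' v.maximalIdeal).1 (hWm v hv.1)
      exact h)
    have h4 : ∑ v ∈ W, lN v.maximalIdeal ≤ ∑ v ∈ W.filter (fun v => v ∉ B1), lN v.maximalIdeal +
        ∑ v ∈ B1, lN v.maximalIdeal := by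
      rw [← Finset.sum_filter_add_sum_filter_not W (fun v => v ∉ B1)]
      have : ∑ v ∈ W.filter (fun v => ¬ v ∉ B1), lN v.maximalIdeal ≤
          ∑ v ∈ B1, lN v.maximalIdeal := by
        refine Finset.sum_le_sum_of_subset_of_nonneg ?_ fun v _ _ => hlN0 _
        intro v hv
        rw [Finset.mem_filter, not_not] at hv
        exact hv.2
      linarith
    rw [lD_eq F]
    have s5 : Y733.VR.ld F - Y733.VR.ld k ≤ (1 / 2 * ∑ v ∈ V', lN v) / finrank ℚ k +
          ((1 / 2 * ∑ v ∈ P2, lN v) / finrank ℚ k + Real.log 2) := by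
      push_cast at hld
      linarith
    have s6 : finrank ℚ k * (Y733.VR.ld F - Y733.VR.ld k) ≤ 1 / 2 * ∑ v ∈ V', lN v + D := by
      calc finrank ℚ k * (Y733.VR.ld F - Y733.VR.ld k)
          ≤ finrank ℚ k * ((1 / 2 * ∑ v ∈ V', lN v) / finrank ℚ k +
            ((1 / 2 * ∑ v ∈ P2, lN v) / finrank ℚ k + Real.log 2)) :=
            mul_le_mul_of_nonneg_left s5 hk.le
        _ = _ := by
            rw [mul_add, mul_div_cancel₀ _ hk.ne']
    have h5 : ∑ v ∈ W.filter (fun v => v ∉ B1), lN v.maximalIdeal ≤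
        2 * (logHeight ![1, x 0, x 1] + ∑ i : Fin m, logHeight₁ (x i.succ.succ)) + C1 := h3
    have h6 := le_abs_self C1
    rw [hWs] at s6
    have h7 := abs_nonneg C1
    linarith

end fin

end Pool.Agent.NH29.VE
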