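import Mathlib
import Pool.Agent.NH29.VE.Alg
import Pool.Agent.NH29.VE.Pts
import Pool.Agent.Helper259.HtExt

set_option autoImplicit false
set_option linter.unusedSectionVars false

/-!
The exceptional set of Vojta's inequality for points of bounded degree depends on `ε`.
-/

namespace Pool.Agent.NH29.VE

open NumberField WeierstrassCurve IsDedekindDomain Height Function Module
open Pool.Agent.TH942 Pool.Agent.TH954

variable {k : Type} [Field k] [NumberField k]

/-- the height of the point `(x, w)` -/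
noncomputable def hgt (k : Type) [Field k] {F : Type} [Field F] [NumberField F] [Algebra k F]
    {n : ℕ} (x w : Fin n → F) : ℝ :=
  (∑ i, logHeight ![x i, w i, 1]) / finrank k F

lemma hgt_ge (F : Type) [Field F] [NumberField F] [Algebra k F] {A B : k} {n : ℕ}
    {P : Fin n → SPt A B} (hP : ∀ l, P l ≠ 0) (w : Fin n → F) :
    ∑ l, sht (P l) ≤ hgt k (fun l => algebraMap k F (xc (P l))) w := by
  have hkF : (0 : ℝ) < finrank k F := by
    have : FiniteDimensional k F := FiniteDimensional.right ℚ k F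
    exact_mod_cast finrank_pos
  unfold hgt
  rw [le_div_iff₀ hkF, Finset.sum_mul]
  refine Finset.sum_le_sum fun l _ => ?_
  obtain ⟨x, y, h, hPl⟩ := exists_some (hP l)
  have e1 : sht (P l) = logHeight ![x, 1] := by
    rw [hPl, sht, Affine.Point.xRep_some]
  have e2 : xc (P l) = x := by rw [hPl]; rfl
  have h1 := Pool.Agent.Helper259.HtExt.logHeight_ext (L := F) ![x, 1]
  have h2 : (fun i => algebraMap k F (![x, 1] i)) = ![algebraMap k F x, 1] := by
    funext i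
    fin_cases i <;> simp
  rw [h2] at h1
  have h3 := logHeight_comp_le (![0, 2] : Fin 2 → Fin 3) (![algebraMap k F x, w l, 1])
  have h4 : (![algebraMap k F x, w l, 1] ∘ (![0, 2] : Fin 2 → Fin 3)) =
      ![algebraMap k F x, 1] := by
    funext i
    fin_cases i <;> simp
  rw [h4, h1] at h3
  rw [e1, mul_comm]
  show _ ≤ logHeight ![algebraMap k F (xc (P l)), w l, 1]
  rw [e2]
  exact h3

/-- Vojta's inequality -/
def VI {k : Type} [Field k] [NumberField k] (A B : k) {n : ℕ}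
    (G : MvPolynomial (Fin n) k) (κ ε C : ℝ) (d : ℕ) : Prop :=
  ∀ (F : Type) [Field F] [NumberField F] [Algebra k F] (x w : Fin n → F),
    (∀ i, w i ^ 4 = x i ^ 3 + algebraMap k F A * x i + algebraMap k F B) → finrank k F ≤ d →
    IntermediateField.adjoin k (Set.range x ∪ Set.range w) = ⊤ →
    MvPolynomial.aeval x G ≠ 0 →
    hgt k x w ≤ κ * lD k F + ε * hgt k x w + C

lemma arith {κ ε M q C₀ C₁ C H d : ℝ} (hκ : 0 ≤ κ) (hε : 0 < 1 - ε)
    (b1 : M * q - 2 * C₀ ≤ H) (b3 : H ≤ κ * d + ε * H + C)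
    (b4 : d ≤ (M - 1) * q + (C₁ / 4 + C₀)) :
    ((1 - ε) * M - κ * (M - 1)) * q ≤ κ * (C₁ / 4 + C₀) + (1 - ε) * (2 * C₀) + C := by
  have b2 : (1 - ε) * (M * q - 2 * C₀) ≤ (1 - ε) * H := mul_le_mul_of_nonneg_left b1 hε.le
  have b4' : κ * d ≤ κ * ((M - 1) * q + (C₁ / 4 + C₀)) := mul_le_mul_of_nonneg_left b4 hκ
  have c1 : ((1 - ε) * M - κ * (M - 1)) * q = (1 - ε) * (M * q) - κ * ((M - 1) * q) := by ring
  have c2 : (1 - ε) * (M * q - 2 * C₀) = (1 - ε) * (M * q) - (1 - ε) * (2 * C₀) := by ring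
  have c3 : κ * ((M - 1) * q + (C₁ / 4 + C₀)) = κ * ((M - 1) * q) + κ * (C₁ / 4 + C₀) := by ring
  have c4 : (1 - ε) * H = H - ε * H := by ring
  rw [c1]
  rw [c2, c4] at b2
  rw [c3] at b4'
  linarith

theorem main (A B : k) (hD : 4 * A ^ 3 + 27 * B ^ 2 ≠ 0)
    (hE : {p : k × k | p.2 ^ 2 = p.1 ^ 3 + A * p.1 + B}.Infinite) {n : ℕ}
    (G : MvPolynomial (Fin n) k) (hG : G ≠ 0) (κ ε C : ℝ) (hκ : 0 ≤ κ)
    (hV : VI A B G κ ε C (2 ^ n)) (S : Finset (ℕ × ℕ))
    (hS : ∀ p ∈ S, 0 < p.1 ∧ 0 < p.2 ∧ Nat.Coprime p.1 p.2 ∧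
      κ * ((p.1 : ℝ) ^ 2 + (p.2 : ℝ) ^ 2 - 1) < (1 - ε) * ((p.1 : ℝ) ^ 2 + (p.2 : ℝ) ^ 2))
    {i j : Fin n} (hij : i ≠ j) :
    S.card ≤ G.degreeOf j := by
  classical
  obtain ⟨q, C₀, hC₀, hq1, hq0, hq⟩ := canonical (K := k) hD
  -- a point of infinite order
  obtain ⟨T₀, hT₀⟩ : ∃ T₀ : SPt A B, ¬ IsOfFinAddOrder T₀ := by
    by_contra hcon
    push Not at hcon
    have hq00 : ∀ P : SPt A B, q P = 0 := by
      intro P
      obtain ⟨N, hN, hN2⟩ := isOfFinAddOrder_iff_nsmul_eq_zero.mp (hcon P)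
      have h1 := q_nsmul hq N P
      rw [hN2, q_zero' hq] at h1
      have h2 : ((N : ℝ)) ^ 2 ≠ 0 := by positivity
      exact (mul_eq_zero.1 h1.symm).resolve_left h2
    have hfin := sfinite_ht (a := A) (b := B) C₀
    have hall : ∀ P : SPt A B, P ∈ {P : SPt A B | sht P ≤ C₀} := by
      intro P
      have h1 := hq1 P
      rw [hq00 P, zero_sub, abs_neg] at h1
      exact (le_abs_self _).trans h1
    apply hE
    refine Set.Finite.subset (hfin.image (fun P : SPt A B => (xc P, yc P))) ?_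
    rintro ⟨x, y⟩ hxy
    exact ⟨Affine.Point.some x y (sw_nonsing hD hxy), hall _, rfl⟩
  have hmul0 : ∀ m : ℕ, 0 < m → m • T₀ ≠ 0 := by
    intro m hm h0
    exact hT₀ (isOfFinAddOrder_iff_nsmul_eq_zero.mpr ⟨m, hm, h0⟩)
  have hqT : 0 < q T₀ := q_pos hq1 hq0 hq hT₀
  set X : ℕ → k := fun m => xc (m • T₀) with hX
  have hXinj : ∀ m m', 0 < m → 0 < m' → X m = X m' → m = m' := by
    intro m m' hm hm' e
    obtain ⟨x, y, h, h1⟩ := exists_some (hmul0 m hm)
    obtain ⟨x', y', h', h1'⟩ := exists_some (hmul0 m' hm')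
    have e1 : (m • T₀).xRep = (m' • T₀).xRep := by
      simp only [hX, h1, h1'] at e
      rw [h1, h1', Affine.Point.xRep_some, Affine.Point.xRep_some]
      have : x = x' := e
      rw [this]
    rcases Affine.Point.eq_or_eq_neg_of_xRep_eq_xRep e1 with h2 | h2
    · exact injective_nsmul_iff_not_isOfFinAddOrder.mpr hT₀ h2
    · exfalso
      apply hmul0 (m + m') (by omega)
      rw [add_smul, h2, neg_add_cancel]
  refine alg G hG hij X hXinj S (fun p hp => ⟨(hS p hp).1, (hS p hp).2.1, (hS p hp).2.2.1⟩) ?_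
  intro r hr
  -- for a single pair
  have hone : ∀ p ∈ S, ∃ t₀ : ℕ, ∀ s : ℕ, t₀ ≤ s → 0 < s →
      MvPolynomial.eval (Function.update (Function.update (fun l => X (r l)) i (X (p.1 * s))) j
        (X (p.2 * s))) G = 0 := by
    intro p hp
    obtain ⟨hp1, hp2, hcop, hε⟩ := hS p hp
    obtain ⟨C₁, hC₁⟩ := disc_pts A B hD (n := n) (i := i) (j := j) (fun l => r l • T₀) p.1 p.2
    set δ : ℝ := (1 - ε) * ((p.1 : ℝ) ^ 2 + (p.2 : ℝ) ^ 2) -
      κ * ((p.1 : ℝ) ^ 2 + (p.2 : ℝ) ^ 2 - 1) with hδ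
    have hδ0 : 0 < δ := by rw [hδ]; linarith
    have hp1' : (1 : ℝ) ≤ p.1 := by exact_mod_cast hp1
    have hp2' : (1 : ℝ) ≤ p.2 := by exact_mod_cast hp2
    have hε1 : 0 < 1 - ε := by
      have h1 : (1 : ℝ) ≤ (p.1 : ℝ) ^ 2 := one_le_pow₀ hp1'
      have h2 : (1 : ℝ) ≤ (p.2 : ℝ) ^ 2 := one_le_pow₀ hp2'
      by_contra hc
      rw [not_lt] at hc
      have h3 : 0 ≤ κ * ((p.1 : ℝ) ^ 2 + (p.2 : ℝ) ^ 2 - 1) := mul_nonneg hκ (by linarith)
      nlinarith
    obtain ⟨t₀, ht₀⟩ := exists_nat_gt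
      ((κ * (C₁ / 4 + C₀) + (1 - ε) * (2 * C₀) + C) / (δ * q T₀))
    refine ⟨t₀, fun s hs hs0 => ?_⟩
    by_contra hne
    set T : SPt A B := s • T₀ with hT
    set P : Fin n → SPt A B := fun l => if l = i then p.1 • T else if l = j then p.2 • T else
      r l • T₀ with hP
    have hPi : P i = p.1 • T := by simp [hP]
    have hPj : P j = p.2 • T := by simp [hP, hij.symm]
    have hPl : ∀ l, l ≠ i → l ≠ j → P l = r l • T₀ := by
      intro l h1 h2
      simp [hP, h1, h2]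
    have hPm : ∀ l, ∃ m : ℕ, 0 < m ∧ P l = m • T₀ := by
      intro l
      by_cases h1 : l = i
      · exact ⟨p.1 * s, Nat.mul_pos hp1 hs0, by rw [h1, hPi, hT, mul_smul]⟩
      · by_cases h2 : l = j
        · exact ⟨p.2 * s, Nat.mul_pos hp2 hs0, by rw [h2, hPj, hT, mul_smul]⟩
        · exact ⟨r l, hr l, hPl l h1 h2⟩
    have hP0 : ∀ l, P l ≠ 0 := by
      intro l
      obtain ⟨m, hm, h1⟩ := hPm l
      rw [h1]
      exact hmul0 m hm
    have h2P0 : ∀ l, (2 : ℕ) • P l ≠ 0 := by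
      intro l
      obtain ⟨m, hm, h1⟩ := hPm l
      rw [h1, ← mul_smul]
      exact hmul0 _ (by omega)
    obtain ⟨F, iF, iN, iA, w, hw, htop, hfin, hdisc⟩ := hC₁ T P (by
      rw [hT, ← mul_smul]; exact hmul0 _ (by omega)) hP0 h2P0 hPi hPj hPl
    have hvoj := hV F (fun l => algebraMap k F (xc (P l))) w (fun l => by
      have e1 := eqn_of_ne (hP0 l)
      calc w l ^ 4 = (w l ^ 2) ^ 2 := by ring
        _ = algebraMap k F (yc (P l) ^ 2) := by rw [hw, map_pow]
        _ = _ := by rw [e1]; simp only [map_add, map_mul, map_pow]) hfin (by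
      rw [eq_top_iff, ← htop]
      exact IntermediateField.adjoin.mono k _ _ Set.subset_union_right) (by
      have e1 : (fun l => algebraMap k F (xc (P l))) = algebraMap k F ∘ (fun l => xc (P l)) := rfl
      rw [e1]
      have e3 : MvPolynomial.aeval (algebraMap k F ∘ (fun l => xc (P l))) G =
          algebraMap k F (MvPolynomial.eval (fun l => xc (P l)) G) := by
        rw [← MvPolynomial.aeval_eq_eval]
        exact MvPolynomial.aeval_algebraMap_apply F (fun l => xc (P l)) G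
      rw [e3, _root_.map_ne_zero]
      have e2 : (fun l => xc (P l)) = Function.update (Function.update (fun l => X (r l)) i
          (X (p.1 * s))) j (X (p.2 * s)) := by
        funext l
        by_cases h2 : l = j
        · rw [h2, Function.update_self, hPj, hT, ← mul_smul]
        · rw [Function.update_of_ne h2]
          by_cases h1 : l = i
          · rw [h1, Function.update_self, hPi, hT, ← mul_smul]
          · rw [Function.update_of_ne h1, hPl l h1 h2]
      rw [e2]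
      exact hne)
    have hge := hgt_ge F hP0 w
    have hsum : sht (p.1 • T) + sht (p.2 • T) ≤ ∑ l, sht (P l) := by
      rw [← hPi, ← hPj]
      calc sht (P i) + sht (P j) = ∑ l ∈ {i, j}, sht (P l) := by
            rw [Finset.sum_pair hij]
        _ ≤ _ := Finset.sum_le_sum_of_subset_of_nonneg (Finset.subset_univ _)
            fun l _ _ => sht_nonneg _
    have a1 := hq1 (p.1 • T)
    have a2 := hq1 (p.2 • T)
    have a3 := hq1 (p.1 • (2 : ℕ) • T)
    have a4 := hq1 (p.2 • (2 : ℕ) • T)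
    have a5 := hq1 ((2 : ℕ) • T)
    rw [q_nsmul hq] at a1 a2 a3 a4 a5
    rw [q_nsmul hq] at a3 a4
    rw [abs_le] at a1 a2 a3 a4 a5
    have hqs : q T = (s : ℝ) ^ 2 * q T₀ := by rw [hT, q_nsmul hq]
    push_cast at a3 a4 a5
    have b1 : ((p.1 : ℝ) ^ 2 + (p.2 : ℝ) ^ 2) * q T - 2 * C₀ ≤
        hgt k (fun l => algebraMap k F (xc (P l))) w := by
      have e1 := a1.2
      have e2 := a2.2
      have e3 : ((p.1 : ℝ) ^ 2 + (p.2 : ℝ) ^ 2) * q T = (p.1 : ℝ) ^ 2 * q T + (p.2 : ℝ) ^ 2 * q T := by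
        ring
      rw [e3]
      linarith only [e1, e2, hge, hsum]
    have b4 : lD k F ≤ ((p.1 : ℝ) ^ 2 + (p.2 : ℝ) ^ 2 - 1) * q T + (C₁ / 4 + C₀) := by
      have e3 : ((p.1 : ℝ) ^ 2 + (p.2 : ℝ) ^ 2 - 1) * q T = (p.1 : ℝ) ^ 2 * q T +
        (p.2 : ℝ) ^ 2 * q T - q T := by ring
      rw [e3]
      have e4 := a3.1
      have e5 := a4.1
      have e6 := a5.2
      linarith only [e4, e5, e6, hdisc, hC₀]
    have b5 := arith hκ hε1 b1 hvoj b4
    have hs1 : (1 : ℝ) ≤ s := by exact_mod_cast hs0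
    have hst : (t₀ : ℝ) ≤ s := by exact_mod_cast hs
    have h2 : 0 < δ * q T₀ := mul_pos hδ0 hqT
    have b6 : (s : ℝ) * (δ * q T₀) ≤ δ * q T := by
      rw [hqs]
      have h1 : (s : ℝ) ≤ (s : ℝ) ^ 2 := by
        rw [sq]
        exact le_mul_of_one_le_left (by linarith only [hs1]) hs1
      have h3 := mul_le_mul_of_nonneg_right h1 h2.le
      have h4 : (s : ℝ) ^ 2 * (δ * q T₀) = δ * ((s : ℝ) ^ 2 * q T₀) := by ring
      rwa [h4] at h3
    rw [div_lt_iff₀ h2] at ht₀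
    have b7 : (t₀ : ℝ) * (δ * q T₀) ≤ s * (δ * q T₀) := mul_le_mul_of_nonneg_right hst h2.le
    linarith only [b5, b6, b7, ht₀]
  choose! t₀ ht₀ using hone
  refine ⟨∑ p ∈ S, t₀ p, fun s hs hs0 p hp => ht₀ p hp s ?_ hs0⟩
  exact (Finset.single_le_sum (f := t₀) (fun _ _ => Nat.zero_le _) hp).trans hs

end Pool.Agent.NH29.VE
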