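import Mathlib
import Pool.Agent.NH29.VE.Alg
import Pool.Agent.NH29.VE.Quad

set_option autoImplicit false
set_option linter.unusedSectionVars false

/-!
The exceptional set of Vojta's inequality for quadratic points depends on `ε`.
-/

namespace Pool.Agent.NH29.VE

open NumberField WeierstrassCurve IsDedekindDomain Height Function Module
open Pool.Agent.TH942 Pool.Agent.TH954

section

variable {K : Type} [Field K] [DecidableEq K] [CharZero K]

lemma xm_le_good {a b : K} {v : AbsoluteValue K ℝ} (hna : ∀ x y, v (x + y) ≤ max (v x) (v y))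
    (ha : v a ≤ 1) (hb : v b ≤ 1) (m : ℕ) {Q : SPt a b} (hQ : Q ≠ 0) (hmQ : m • Q ≠ 0) :
    xm v Q ≤ xm v (m • Q) := by
  obtain ⟨x, y, h, rfl⟩ := exists_some hQ
  obtain ⟨X, Y, H, hX⟩ := exists_some hmQ
  have h2 := one_le_xm v (m • (Affine.Point.some x y h : SPt a b))
  rw [xm_some]
  refine max_le ?_ h2
  rcases le_or_gt (v x) 1 with hc | hc
  · exact hc.trans h2
  · have h4 : BigV v (v x) (Affine.Point.some x y h : SPt a b) := bigV_some.2 le_rfl
    have h5 := bigV_nsmul_na hna ha hb hc h4 m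
    rw [hX, bigV_some] at h5
    rw [hX, xm_some]
    exact h5.trans (le_max_left _ _)

lemma m3_eq {a b : K} (v : AbsoluteValue K ℝ) {P Q : SPt a b} (hP : P ≠ 0) (hQ : Q ≠ 0) :
    m3 v (xc P) (xc Q) ≤ max (xm v P) (xm v Q) := by
  obtain ⟨x, y, h, rfl⟩ := exists_some hP
  obtain ⟨X, Y, H, rfl⟩ := exists_some hQ
  rw [xm_some, xm_some]
  refine m3_le_iff v _ _ ?_ ?_ ?_
  · exact (le_max_right (v x) 1).trans (le_max_left _ _)
  · exact (le_max_left (v x) 1).trans (le_max_left _ _)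
  · exact (le_max_left (v X) 1).trans (le_max_right _ _)

lemma gain_loc {a b : K} (v : AbsoluteValue K ℝ) {c : ℝ} (hc : 1 ≤ c) {T P Q : SPt a b}
    (hP : P ≠ 0) (hQ : Q ≠ 0) (h1 : xm v T ≤ c * xm v P) (h2 : xm v T ≤ c * xm v Q) :
    xm v T * m3 v (xc P) (xc Q) ≤ c * (xm v P * xm v Q) := by
  have h3 := m3_eq v hP hQ
  have t0 := one_le_xm v T
  have p0 := one_le_xm v P
  have q0 := one_le_xm v Q
  refine (mul_le_mul_of_nonneg_left h3 (by linarith)).trans ?_
  rcases le_total (xm v P) (xm v Q) with h | h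
  · rw [max_eq_right h]
    calc xm v T * xm v Q ≤ (c * xm v P) * xm v Q := mul_le_mul_of_nonneg_right h1 (by linarith)
      _ = _ := by ring
  · rw [max_eq_left h]
    calc xm v T * xm v P ≤ (c * xm v Q) * xm v P := mul_le_mul_of_nonneg_right h2 (by linarith)
      _ = _ := by ring

end

section

variable {k : Type} [Field k] [NumberField k] [DecidableEq k]

/-- **two multiples of a point are simultaneously near the origin** -/
theorem gain (A B : k) (m n : ℕ) :
    ∃ C : ℝ, ∀ T : SPt A B, T ≠ 0 → m • T ≠ 0 → n • T ≠ 0 →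
      sht T + logHeight ![1, xc (m • T), xc (n • T)] ≤ sht (m • T) + sht (n • T) + C := by
  classical
  have h2 : ∀ x : k, {v : FinitePlace k | ¬ v x ≤ 1}.Finite := by
    intro x
    by_cases hx : x = 0
    · have : {v : FinitePlace k | ¬ v x ≤ 1} = ∅ := by
        ext v
        simp [hx]
      rw [this]
      exact Set.finite_empty
    · refine Set.Finite.subset (FinitePlace.hasFiniteMulSupport hx) ?_
      intro v hv h
      exact hv (le_of_eq h)
  set B0 : Finset (FinitePlace k) := (h2 A).toFinset ∪ (h2 B).toFinset with hB0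
  have hB : ∀ v : FinitePlace k, v ∉ B0 → v A ≤ 1 ∧ v B ≤ 1 := by
    intro v hv
    rw [hB0, Finset.mem_union, Set.Finite.mem_toFinset, Set.Finite.mem_toFinset, not_or] at hv
    exact ⟨not_not.1 hv.1, not_not.1 hv.2⟩
  set cA : AbsoluteValue k ℝ → ℝ := fun v => Rc A B m v * Rc A B n v with hcA
  have hcAm : ∀ v, Rc A B m v ≤ cA v := by
    intro v
    have h1 := one_le_Rc A B m v
    have h3 := one_le_Rc A B n v
    simp only [hcA]
    nlinarith
  have hcAn : ∀ v, Rc A B n v ≤ cA v := by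
    intro v
    have h1 := one_le_Rc A B m v
    have h3 := one_le_Rc A B n v
    simp only [hcA]
    nlinarith
  have hcA1 : ∀ v, 1 ≤ cA v := fun v => (one_le_Rc A B m v).trans (hcAm v)
  set Cf : FinitePlace k → ℝ := fun v => if v ∈ B0 then cA v.val else 1 with hCf
  have hCfs : Cf.HasFiniteMulSupport := by
    refine Set.Finite.subset B0.finite_toSet ?_
    intro v hv
    by_contra hc
    apply hv
    have : v ∉ B0 := hc
    rw [hCf]
    simp only [this, if_false]
  have hCf1 : ∀ v, 1 ≤ Cf v := by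
    intro v
    simp only [hCf]
    split_ifs
    · exact hcA1 _
    · exact le_rfl
  set Ci : ℝ := ∏ w : InfinitePlace k, cA w.val ^ w.mult with hCi
  have hCi0 : 0 < Ci := Finset.prod_pos fun w _ => pow_pos (by
    have := hcA1 w.val; linarith) _
  have hCf0 : 0 < ∏ᶠ v, Cf v := finprod_induction (fun x : ℝ => 0 < x) one_pos
    (fun _ _ h1 h2 => mul_pos h1 h2) (fun v => zero_lt_one.trans_le (hCf1 v))
  refine ⟨Real.log (Ci * ∏ᶠ v, Cf v), ?_⟩
  intro T hT hm hn
  have hcv : ∀ (v : AbsoluteValue k ℝ), xm v T ≤ cA v * xm v (m • T) ∧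
      xm v T ≤ cA v * xm v (n • T) := by
    intro v
    have o1 := one_le_xm v (m • T)
    have o2 := one_le_xm v (n • T)
    exact ⟨(xm_le v m hT hm).trans (mul_le_mul_of_nonneg_right (hcAm v) (by linarith)),
      (xm_le v n hT hn).trans (mul_le_mul_of_nonneg_right (hcAn v) (by linarith))⟩
  have hloc : ∀ v : FinitePlace k, xm v.val T * m3 v.val (xc (m • T)) (xc (n • T)) ≤
      Cf v * (xm v.val (m • T) * xm v.val (n • T)) := by
    intro v
    have hna : ∀ x y, v.val (x + y) ≤ max (v.val x) (v.val y) := FinitePlace.add_le v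
    by_cases hvB : v ∈ B0
    · simp only [hCf, hvB, if_true]
      exact gain_loc v.val (hcA1 _) hm hn (hcv v.val).1 (hcv v.val).2
    · obtain ⟨ha, hb⟩ := hB v hvB
      simp only [hCf, hvB, if_false]
      refine gain_loc v.val le_rfl hm hn ?_ ?_
      · rw [one_mul]; exact xm_le_good hna ha hb m hT hm
      · rw [one_mul]; exact xm_le_good hna ha hb n hT hn
  have hne : (![1, xc (m • T), xc (n • T)] : Fin 3 → k) ≠ 0 := by
    intro h
    have := congrFun h 0
    simp at this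
  have h3s : (fun v : FinitePlace k => m3 v.val (xc (m • T)) (xc (n • T))).HasFiniteMulSupport :=
    sup_fin hne
  have e0 : mulHeight ![1, xc (m • T), xc (n • T)] =
      (∏ w : InfinitePlace k, m3 w.val (xc (m • T)) (xc (n • T)) ^ w.mult) *
      ∏ᶠ v : FinitePlace k, m3 v.val (xc (m • T)) (xc (n • T)) := NumberField.mulHeight_eq hne
  have hht : ∀ P : SPt A B, mulHeight P.xRep =
      (∏ w : InfinitePlace k, xm w.val P ^ w.mult) * ∏ᶠ v : FinitePlace k, xm v.val P :=
    fun P => NumberField.mulHeight_eq P.xRep_ne_zero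
  have hpair : (fun v : FinitePlace k => xm v.val (m • T) * xm v.val (n • T)).HasFiniteMulSupport :=
    (xm_fin _).mul (xm_fin _)
  have hfin : (∏ᶠ v : FinitePlace k, xm v.val T) *
      ∏ᶠ v : FinitePlace k, m3 v.val (xc (m • T)) (xc (n • T)) ≤
      (∏ᶠ v, Cf v) * ((∏ᶠ v : FinitePlace k, xm v.val (m • T)) *
        ∏ᶠ v : FinitePlace k, xm v.val (n • T)) := by
    have e1 := finprod_mul_distrib (xm_fin T) h3s
    have e2 := finprod_mul_distrib (xm_fin (m • T)) (xm_fin (n • T))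
    have e3 := finprod_mul_distrib hCfs hpair
    rw [← e1, ← e2, ← e3]
    refine finprod_le_finprod ((xm_fin T).mul h3s) (fun v => ?_) (hCfs.mul hpair) hloc
    have o1 := one_le_xm v.val T
    have o2 := one_le_m3 v.val (xc (m • T)) (xc (n • T))
    exact mul_nonneg (by linarith) (by linarith)
  have hinf : (∏ w : InfinitePlace k, xm w.val T ^ w.mult) *
      ∏ w : InfinitePlace k, m3 w.val (xc (m • T)) (xc (n • T)) ^ w.mult ≤
      Ci * ((∏ w : InfinitePlace k, xm w.val (m • T) ^ w.mult) *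
        ∏ w : InfinitePlace k, xm w.val (n • T) ^ w.mult) := by
    rw [hCi, ← Finset.prod_mul_distrib, ← Finset.prod_mul_distrib, ← Finset.prod_mul_distrib]
    refine Finset.prod_le_prod (fun w _ => ?_) fun w _ => ?_
    · have o1 := one_le_xm w.val T
      have o2 := one_le_m3 w.val (xc (m • T)) (xc (n • T))
      positivity
    · rw [← mul_pow, ← mul_pow, ← mul_pow]
      have o1 := one_le_xm w.val T
      have o2 := one_le_m3 w.val (xc (m • T)) (xc (n • T))
      exact pow_le_pow_left₀ (mul_nonneg (by linarith) (by linarith))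
        (gain_loc w.val (hcA1 _) hm hn (hcv w.val).1 (hcv w.val).2) _
  have hfp : ∀ P : SPt A B, 0 < ∏ᶠ v : FinitePlace k, xm v.val P := fun P =>
    finprod_induction (fun x : ℝ => 0 < x) one_pos (fun _ _ h1 h2 => mul_pos h1 h2)
      (fun v => zero_lt_one.trans_le (one_le_xm v.val P))
  have h3p : 0 < ∏ᶠ v : FinitePlace k, m3 v.val (xc (m • T)) (xc (n • T)) :=
    finprod_induction (fun x : ℝ => 0 < x) one_pos (fun _ _ h1 h2 => mul_pos h1 h2)
      (fun v => zero_lt_one.trans_le (one_le_m3 v.val _ _))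
  have hip : ∀ P : SPt A B, 0 < ∏ w : InfinitePlace k, xm w.val P ^ w.mult := fun P =>
    Finset.prod_pos fun w _ => pow_pos (zero_lt_one.trans_le (one_le_xm w.val P)) _
  have hmain : mulHeight T.xRep * mulHeight ![1, xc (m • T), xc (n • T)] ≤
      (Ci * ∏ᶠ v, Cf v) * (mulHeight (m • T).xRep * mulHeight (n • T).xRep) := by
    rw [hht T, hht (m • T), hht (n • T), e0]
    calc _ = ((∏ w : InfinitePlace k, xm w.val T ^ w.mult) *
          ∏ w : InfinitePlace k, m3 w.val (xc (m • T)) (xc (n • T)) ^ w.mult) *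
          ((∏ᶠ v : FinitePlace k, xm v.val T) *
          ∏ᶠ v : FinitePlace k, m3 v.val (xc (m • T)) (xc (n • T))) := by ring
      _ ≤ _ := mul_le_mul hinf hfin (mul_nonneg (hfp _).le h3p.le)
          (mul_nonneg hCi0.le (mul_nonneg (hip _).le (hip _).le))
      _ = _ := by ring
  have hlog := Real.log_le_log (mul_pos (mulHeight_pos _) (mulHeight_pos _)) hmain
  rw [Real.log_mul (mulHeight_ne_zero _) (mulHeight_ne_zero _),
    Real.log_mul (mul_pos hCi0 hCf0).ne' (mul_pos (mulHeight_pos _) (mulHeight_pos _)).ne',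
    Real.log_mul (mulHeight_ne_zero _) (mulHeight_ne_zero _)] at hlog
  unfold sht
  rw [logHeight_eq_log_mulHeight, logHeight_eq_log_mulHeight, logHeight_eq_log_mulHeight,
    logHeight_eq_log_mulHeight]
  linarith

/-- the height of a point -/
noncomputable def hgt2 (k : Type) [Field k] {F : Type} [Field F] [NumberField F] [Algebra k F]
    {m : ℕ} (x : Fin (m + 2) → F) : ℝ :=
  ((logHeight₁ (x 0) + logHeight₁ (x 1) + logHeight ![1, x 0, x 1]) / 2 +
    ∑ i : Fin m, logHeight₁ (x i.succ.succ)) / finrank k F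

omit [DecidableEq k] in
lemma hgt2_eq (F : Type) [Field F] [NumberField F] [Algebra k F] {m : ℕ} (x : Fin (m + 2) → k) :
    hgt2 k (fun l => algebraMap k F (x l)) =
      (logHeight₁ (x 0) + logHeight₁ (x 1) + logHeight ![1, x 0, x 1]) / 2 +
        ∑ i : Fin m, logHeight₁ (x i.succ.succ) := by
  have hkF : (0 : ℝ) < finrank k F := by
    have : FiniteDimensional k F := FiniteDimensional.right ℚ k F
    exact_mod_cast finrank_pos
  have h1 : ∀ z : k, logHeight₁ (algebraMap k F z) = finrank k F * logHeight₁ z := by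
    intro z
    have h := Pool.Agent.Helper259.HtExt.logHeight_ext (L := F) ![z, 1]
    have h2 : (fun i => algebraMap k F (![z, 1] i)) = ![algebraMap k F z, 1] := by
      funext i
      fin_cases i <;> simp
    rwa [h2, ← logHeight₁_eq_logHeight, ← logHeight₁_eq_logHeight] at h
  have h3 : logHeight ![1, algebraMap k F (x 0), algebraMap k F (x 1)] =
      finrank k F * logHeight ![1, x 0, x 1] := by
    have h := Pool.Agent.Helper259.HtExt.logHeight_ext (L := F) ![1, x 0, x 1]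
    have h2 : (fun i => algebraMap k F (![1, x 0, x 1] i)) =
        ![1, algebraMap k F (x 0), algebraMap k F (x 1)] := by
      funext i
      fin_cases i <;> simp
    rwa [h2] at h
  unfold hgt2
  simp only [h1, h3]
  rw [← Finset.mul_sum]
  field_simp

/-- Vojta's inequality -/
def VI2 {k : Type} [Field k] [NumberField k] (A B : k) {m : ℕ}
    (Ψ G : MvPolynomial (Fin (m + 2)) k) (ε C : ℝ) : Prop :=
  ∀ (F : Type) [Field F] [NumberField F] [Algebra k F] (x y : Fin (m + 2) → F) (w : F),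
    (∀ i, y i ^ 2 = x i ^ 3 + algebraMap k F A * x i + algebraMap k F B) →
    w ^ 2 = MvPolynomial.aeval x Ψ → finrank k F ≤ 2 →
    IntermediateField.adjoin k (Set.range x ∪ Set.range y ∪ {w}) = ⊤ →
    MvPolynomial.aeval x G ≠ 0 →
    hgt2 k x ≤ lD k F + ε * hgt2 k x + C

omit [DecidableEq k] in
lemma aeval_alg {F : Type} [Field F] [Algebra k F] {n : ℕ} (x : Fin n → k)
    (G : MvPolynomial (Fin n) k) : MvPolynomial.aeval (fun l => algebraMap k F (x l)) G =
      algebraMap k F (MvPolynomial.eval x G) := by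
  have e1 : (fun l => algebraMap k F (x l)) = algebraMap k F ∘ x := rfl
  rw [e1, ← MvPolynomial.aeval_eq_eval]
  exact MvPolynomial.aeval_algebraMap_apply F x G

omit [DecidableEq k] in
lemma sht_xc {A B : k} {P : SPt A B} (hP : P ≠ 0) : logHeight₁ (xc P) = sht P := by
  obtain ⟨x, y, h, rfl⟩ := exists_some hP
  rw [sht, Affine.Point.xRep_some, ← logHeight₁_eq_logHeight]
  rfl

lemma arith2 {ε M q C₀ C₁ C₂ C h0 h1 h01 Sg d : ℝ} (hε : 0 ≤ ε)
    (b1 : h0 + h1 ≤ M * q + 2 * C₀)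
    (g : q - C₀ + h01 ≤ h0 + h1 + C₁) (hd : d ≤ h01 + Sg + C₂)
    (hV : (h0 + h1 + h01) / 2 + Sg ≤ d + ε * ((h0 + h1 + h01) / 2 + Sg) + C) :
    (1 - ε * (2 * M - 1)) * q ≤ (1 + ε) * (C₀ + C₁) + 2 * (C₂ + C + ε * Sg) + 4 * ε * C₀ := by
  have h2 : (1 + ε) * (q - C₀ - C₁) ≤ (1 + ε) * (h0 + h1 - h01) :=
    mul_le_mul_of_nonneg_left (by linarith) (by linarith)
  have h3 : ε * (h0 + h1) ≤ ε * (M * q + 2 * C₀) := mul_le_mul_of_nonneg_left b1 hε
  nlinarith

theorem main2 (A B : k) (hD : 4 * A ^ 3 + 27 * B ^ 2 ≠ 0)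
    (hE : {p : k × k | p.2 ^ 2 = p.1 ^ 3 + A * p.1 + B}.Infinite) {m : ℕ}
    (Ψ : MvPolynomial (Fin (m + 2)) k) (hΨ : Deg2 Ψ)
    (G : MvPolynomial (Fin (m + 2)) k) (hG : G ≠ 0) (ε C : ℝ) (hε : 0 ≤ ε)
    (hV : VI2 A B Ψ G ε C) (S : Finset (ℕ × ℕ))
    (hS : ∀ p ∈ S, 0 < p.1 ∧ 0 < p.2 ∧ Nat.Coprime p.1 p.2 ∧
      ε * (2 * ((p.1 : ℝ) ^ 2 + (p.2 : ℝ) ^ 2) - 1) < 1)
    {i j : Fin (m + 2)} (hij : (i = 0 ∧ j = 1) ∨ (i = 1 ∧ j = 0)) :
    S.card ≤ G.degreeOf j := by
  classical
  obtain ⟨q, C₀, hC₀, hq1, hq0, hq⟩ := canonical (K := k) hD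
  have hij' : i ≠ j := by
    rcases hij with ⟨h1, h2⟩ | ⟨h1, h2⟩
    · rw [h1, h2]; simp
    · rw [h1, h2]; simp
  -- a point of infinite order
  obtain ⟨T₀, hT₀⟩ : ∃ T₀ : SPt A B, ¬ IsOfFinAddOrder T₀ := by
    by_contra hcon
    push Not at hcon
    have hq00 : ∀ P : SPt A B, q P = 0 := by
      intro P
      obtain ⟨N, hN, hN2⟩ := isOfFinAddOrder_iff_nsmul_eq_zero.mp (hcon P)
      have h1 := q_nsmul hq N P
      rw [hN2, q_zero' hq] at h1
      have h2 : ((N : ℝ)) ^ 2 ≠ 0 := by positivity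
      exact (mul_eq_zero.1 h1.symm).resolve_left h2
    have hfin := sfinite_ht (a := A) (b := B) C₀
    have hall : ∀ P : SPt A B, P ∈ {P : SPt A B | sht P ≤ C₀} := by
      intro P
      have h1 := hq1 P
      rw [hq00 P, zero_sub, abs_neg] at h1
      exact (le_abs_self _).trans h1
    apply hE
    refine Set.Finite.subset (hfin.image (fun P : SPt A B => (xc P, yc P))) ?_
    rintro ⟨x, y⟩ hxy
    exact ⟨Affine.Point.some x y (sw_nonsing hD hxy), hall _, rfl⟩
  have hmul0 : ∀ m : ℕ, 0 < m → m • T₀ ≠ 0 := by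
    intro m hm h0
    exact hT₀ (isOfFinAddOrder_iff_nsmul_eq_zero.mpr ⟨m, hm, h0⟩)
  have hqT : 0 < q T₀ := q_pos hq1 hq0 hq hT₀
  set X : ℕ → k := fun m => xc (m • T₀) with hX
  have hXinj : ∀ m m', 0 < m → 0 < m' → X m = X m' → m = m' := by
    intro m m' hm hm' e
    obtain ⟨x, y, h, h1⟩ := exists_some (hmul0 m hm)
    obtain ⟨x', y', h', h1'⟩ := exists_some (hmul0 m' hm')
    have e1 : (m • T₀).xRep = (m' • T₀).xRep := by
      simp only [hX, h1, h1'] at e
      rw [h1, h1', Affine.Point.xRep_some, Affine.Point.xRep_some]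
      have : x = x' := e
      rw [this]
    rcases Affine.Point.eq_or_eq_neg_of_xRep_eq_xRep e1 with h2 | h2
    · exact injective_nsmul_iff_not_isOfFinAddOrder.mpr hT₀ h2
    · exfalso
      apply hmul0 (m + m') (by omega)
      rw [add_smul, h2, neg_add_cancel]
  refine alg G hG hij' X hXinj S (fun p hp => ⟨(hS p hp).1, (hS p hp).2.1, (hS p hp).2.2.1⟩) ?_
  intro r hr
  obtain ⟨C₂, hC₂⟩ := disc_value Ψ hΨ
  -- the other coordinates
  set Sg : ℝ := ∑ l : Fin m, logHeight₁ (X (r l.succ.succ)) with hSg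
  -- for a single pair
  have hone : ∀ p ∈ S, ∃ t₀ : ℕ, ∀ s : ℕ, t₀ ≤ s → 0 < s →
      MvPolynomial.eval (Function.update (Function.update (fun l => X (r l)) i (X (p.1 * s))) j
        (X (p.2 * s))) G = 0 := by
    intro p hp
    obtain ⟨hp1, hp2, hcop, hε2⟩ := hS p hp
    obtain ⟨C₁, hC₁⟩ := gain A B p.1 p.2
    obtain ⟨C₁', hC₁'⟩ := gain A B p.2 p.1
    set δ : ℝ := 1 - ε * (2 * ((p.1 : ℝ) ^ 2 + (p.2 : ℝ) ^ 2) - 1) with hδ
    have hδ0 : 0 < δ := by rw [hδ]; linarith
    obtain ⟨t₀, ht₀⟩ := exists_nat_gt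
      (((1 + ε) * (C₀ + max C₁ C₁') + 2 * (C₂ + C + ε * Sg) + 4 * ε * C₀) / (δ * q T₀))
    refine ⟨t₀, fun s hs hs0 => ?_⟩
    by_contra hne
    set T : SPt A B := s • T₀ with hT
    set c : Fin (m + 2) → k := Function.update (Function.update (fun l => X (r l)) i
      (X (p.1 * s))) j (X (p.2 * s)) with hc
    have hci : c i = X (p.1 * s) := by
      rw [hc, Function.update_of_ne hij', Function.update_self]
    have hcj : c j = X (p.2 * s) := by rw [hc, Function.update_self]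
    have hcl : ∀ l : Fin m, c l.succ.succ = X (r l.succ.succ) := by
      intro l
      have h0 : l.succ.succ ≠ (0 : Fin (m + 2)) := Fin.succ_ne_zero _
      have h1 : l.succ.succ ≠ (1 : Fin (m + 2)) := by
        intro h
        have := congrArg Fin.val h
        simp at this
      have hli : l.succ.succ ≠ i := by
        rcases hij with ⟨h2, h3⟩ | ⟨h2, h3⟩ <;> rw [h2] <;> assumption
      have hlj : l.succ.succ ≠ j := by
        rcases hij with ⟨h2, h3⟩ | ⟨h2, h3⟩ <;> rw [h3] <;> assumption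
      rw [hc, Function.update_of_ne hlj, Function.update_of_ne hli]
    have hcm : ∀ l, ∃ P : SPt A B, P ≠ 0 ∧ c l = xc P := by
      intro l
      by_cases h2 : l = j
      · exact ⟨(p.2 * s) • T₀, hmul0 _ (Nat.mul_pos hp2 hs0), by rw [h2, hcj]⟩
      · by_cases h1 : l = i
        · exact ⟨(p.1 * s) • T₀, hmul0 _ (Nat.mul_pos hp1 hs0), by rw [h1, hci]⟩
        · exact ⟨r l • T₀, hmul0 _ (hr l), by
            rw [hc, Function.update_of_ne h2, Function.update_of_ne h1]⟩
    choose P hP0 hPc using hcm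
    obtain ⟨F, iF, iN, iA, w, hw, htop, hfin, hdisc⟩ := hC₂ c
    have hvoj := hV F (fun l => algebraMap k F (c l)) (fun l => algebraMap k F (yc (P l))) w
      (fun l => by
        rw [← map_pow, eqn_of_ne (hP0 l), hPc l]
        simp only [map_add, map_mul, map_pow]) (by rw [hw, aeval_alg]) hfin (by
      rw [eq_top_iff, ← htop]
      exact IntermediateField.adjoin.mono k _ _ Set.subset_union_right) (by
      rw [aeval_alg, _root_.map_ne_zero]
      exact hne)
    rw [hgt2_eq] at hvoj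
    have hsum : ∑ l : Fin m, logHeight₁ (c l.succ.succ) = Sg := by
      rw [hSg]
      exact Finset.sum_congr rfl fun l _ => by rw [hcl]
    rw [hsum] at hvoj hdisc
    have hT0 : T ≠ 0 := hmul0 s hs0
    have ha0 : p.1 • T ≠ 0 := by rw [hT, ← mul_smul]; exact hmul0 _ (Nat.mul_pos hp1 hs0)
    have hb0 : p.2 • T ≠ 0 := by rw [hT, ← mul_smul]; exact hmul0 _ (Nat.mul_pos hp2 hs0)
    have ea : X (p.1 * s) = xc (p.1 • T) := by rw [hT, ← mul_smul]
    have eb : X (p.2 * s) = xc (p.2 • T) := by rw [hT, ← mul_smul]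
    have hga := hC₁ T hT0 ha0 hb0
    have hgb := hC₁' T hT0 hb0 ha0
    have a0 := hq1 T
    have a1 := hq1 (p.1 • T)
    have a2 := hq1 (p.2 • T)
    rw [q_nsmul hq] at a1 a2
    rw [abs_le] at a0 a1 a2
    have m1 := le_max_left C₁ C₁'
    have m2 := le_max_right C₁ C₁'
    have b1 : logHeight₁ (c 0) + logHeight₁ (c 1) ≤
        ((p.1 : ℝ) ^ 2 + (p.2 : ℝ) ^ 2) * q T + 2 * C₀ := by
      have e1 : logHeight₁ (c 0) + logHeight₁ (c 1) = sht (p.1 • T) + sht (p.2 • T) := by
        rcases hij with ⟨h2, h3⟩ | ⟨h2, h3⟩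
        · rw [← h2, ← h3, hci, hcj, ea, eb, sht_xc ha0, sht_xc hb0]
        · rw [← h2, ← h3, hci, hcj, ea, eb, sht_xc ha0, sht_xc hb0, add_comm]
      rw [e1]
      have e2 := a1.1
      have e3 := a2.1
      linarith
    have b2 : q T - C₀ + logHeight ![1, c 0, c 1] ≤
        logHeight₁ (c 0) + logHeight₁ (c 1) + max C₁ C₁' := by
      have e0 := a0.2
      rcases hij with ⟨h2, h3⟩ | ⟨h2, h3⟩
      · rw [← h2, ← h3, hci, hcj, ea, eb, sht_xc ha0, sht_xc hb0]
        linarith
      · rw [← h2, ← h3, hci, hcj, ea, eb, sht_xc ha0, sht_xc hb0]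
        linarith
    have b5 := arith2 hε b1 b2 hdisc hvoj
    have hqs : q T = (s : ℝ) ^ 2 * q T₀ := by rw [hT, q_nsmul hq]
    have hs1 : (1 : ℝ) ≤ s := by exact_mod_cast hs0
    have hst : (t₀ : ℝ) ≤ s := by exact_mod_cast hs
    have h2 : 0 < δ * q T₀ := mul_pos hδ0 hqT
    have b6 : (s : ℝ) * (δ * q T₀) ≤ δ * q T := by
      rw [hqs]
      have h1 : (s : ℝ) ≤ (s : ℝ) ^ 2 := by
        rw [sq]
        exact le_mul_of_one_le_left (by linarith only [hs1]) hs1
      have h3 := mul_le_mul_of_nonneg_right h1 h2.le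
      have h4 : (s : ℝ) ^ 2 * (δ * q T₀) = δ * ((s : ℝ) ^ 2 * q T₀) := by ring
      rwa [h4] at h3
    rw [div_lt_iff₀ h2] at ht₀
    have b7 : (t₀ : ℝ) * (δ * q T₀) ≤ s * (δ * q T₀) := mul_le_mul_of_nonneg_right hst h2.le
    linarith only [b5, b6, b7, ht₀]
  choose! t₀ ht₀ using hone
  refine ⟨∑ p ∈ S, t₀ p, fun s hs hs0 p hp => ht₀ p hp s ?_ hs0⟩
  exact (Finset.single_le_sum (f := t₀) (fun _ _ => Nat.zero_le _) hp).trans hs

end

end Pool.Agent.NH29.VE
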